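import Mathlib

/-!
# Infimum convolutions with quadratic costs, and the dual forms of the weak transport inequalities
-/

set_option autoImplicit false

namespace Pool.Agent.X139.WT

open MeasureTheory Set Filter Topology
open scoped RealInnerProductSpace

variable {E : Type*} [NormedAddCommGroup E] [InnerProductSpace ℝ E]

/-- the infimum convolution `Q f (x) = inf_y (f y + a^2 |x - y|^2)` -/
noncomputable def Q (a : ℝ) (f : E → ℝ) (x : E) : ℝ := ⨅ y, (f y + a ^ 2 * ‖x - y‖ ^ 2)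

/-- convex and bounded below -/
def BB (f : E → ℝ) : Prop := ConvexOn ℝ univ f ∧ ∃ m, ∀ x, m ≤ f x

lemma bdd {a m : ℝ} {f : E → ℝ} (hm : ∀ x, m ≤ f x) (x : E) :
    BddBelow (range fun y => f y + a ^ 2 * ‖x - y‖ ^ 2) :=
  ⟨m, by
    rintro _ ⟨y, rfl⟩
    have h : 0 ≤ a ^ 2 * ‖x - y‖ ^ 2 := by positivity
    simp only
    linarith [hm y]⟩

lemma Q_le {a m : ℝ} {f : E → ℝ} (hm : ∀ x, m ≤ f x) (x y : E) :
    Q a f x ≤ f y + a ^ 2 * ‖x - y‖ ^ 2 := ciInf_le (bdd hm x) y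

lemma le_Q {a c : ℝ} {f : E → ℝ} {x : E} (h : ∀ y, c ≤ f y + a ^ 2 * ‖x - y‖ ^ 2) :
    c ≤ Q a f x := le_ciInf h

lemma Q_le_self {a m : ℝ} {f : E → ℝ} (hm : ∀ x, m ≤ f x) (x : E) : Q a f x ≤ f x := by
  simpa using Q_le (a := a) hm x x

lemma m_le_Q {a m : ℝ} {f : E → ℝ} (hm : ∀ x, m ≤ f x) (x : E) : m ≤ Q a f x :=
  le_Q fun y => by
    have h : 0 ≤ a ^ 2 * ‖x - y‖ ^ 2 := by positivity
    linarith [hm y]

lemma Q_mono {a b m : ℝ} {f : E → ℝ} (hm : ∀ x, m ≤ f x) (hab : a ^ 2 ≤ b ^ 2) (x : E) :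
    Q a f x ≤ Q b f x :=
  le_Q fun y => (Q_le hm x y).trans (by gcongr)

lemma Q_sub_const {a m : ℝ} {f : E → ℝ} (hm : ∀ x, m ≤ f x) (c : ℝ) (x : E) :
    Q a (fun y => f y - c) x = Q a f x - c := by
  apply le_antisymm
  · rw [le_sub_iff_add_le]
    apply le_Q
    intro y
    have := Q_le (a := a) (f := fun y => f y - c) (m := m - c) (fun x => by linarith [hm x]) x y
    linarith
  · apply le_Q
    intro y
    linarith [Q_le (a := a) hm x y]

/-- Lipschitz functions -/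
lemma le_Q_of_lip {a β : ℝ} (ha : 0 < a) {f : E → ℝ} (hβ : ∀ x y, f x ≤ f y + β * ‖x - y‖) (x : E) :
    f x - β ^ 2 / (4 * a ^ 2) ≤ Q a f x := by
  apply le_Q
  intro y
  have h := hβ x y
  have h2 : β * ‖x - y‖ ≤ a ^ 2 * ‖x - y‖ ^ 2 + β ^ 2 / (4 * a ^ 2) := by
    have e : a ^ 2 * ‖x - y‖ ^ 2 + β ^ 2 / (4 * a ^ 2) - β * ‖x - y‖ =
        (a * ‖x - y‖ - β / (2 * a)) ^ 2 := by
      field_simp
      ring
    have := sq_nonneg (a * ‖x - y‖ - β / (2 * a))
    linarith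
  linarith

section fin

variable [FiniteDimensional ℝ E]

lemma BB.cont {f : E → ℝ} (hf : BB f) : Continuous f :=
  continuousOn_univ.1 (hf.1.continuousOn isOpen_univ)

lemma attained {a m : ℝ} (ha : 0 < a) {f : E → ℝ} (hf : Continuous f) (hm : ∀ x, m ≤ f x) (x : E) :
    ∃ z, Q a f x = f z + a ^ 2 * ‖x - z‖ ^ 2 := by
  haveI : ProperSpace E := FiniteDimensional.proper_real E
  set r : ℝ := (f x - m) / a ^ 2 + 1 with hr
  have hr1 : 1 ≤ r := by
    have : 0 ≤ (f x - m) / a ^ 2 := div_nonneg (by linarith [hm x]) (by positivity)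
    linarith
  have hcont : Continuous (fun y => f y + a ^ 2 * ‖x - y‖ ^ 2) := by fun_prop
  obtain ⟨z, hz, hmin⟩ := (isCompact_closedBall x r).exists_isMinOn
    ⟨x, Metric.mem_closedBall_self (by linarith)⟩ hcont.continuousOn
  refine ⟨z, le_antisymm (Q_le hm x z) (le_Q fun y => ?_)⟩
  by_cases hy : y ∈ Metric.closedBall x r
  · exact hmin hy
  · have h0 := hmin (Metric.mem_closedBall_self (by linarith : (0:ℝ) ≤ r) : x ∈ Metric.closedBall x r)
    simp only [mem_setOf_eq, sub_self, norm_zero] at h0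
    rw [Metric.mem_closedBall, not_le, dist_comm, dist_eq_norm] at hy
    have h1 : f x - m ≤ a ^ 2 * r := by
      rw [hr, mul_add, mul_div_cancel₀ _ (by positivity)]
      nlinarith [sq_nonneg a]
    have h2 : a ^ 2 * r ≤ a ^ 2 * ‖x - y‖ ^ 2 := by
      apply mul_le_mul_of_nonneg_left _ (by positivity)
      nlinarith
    have := hm y
    linarith

lemma Q_BB {a : ℝ} (ha : 0 < a) {f : E → ℝ} (hf : BB f) : BB (Q a f) := by
  obtain ⟨m, hm⟩ := hf.2
  refine ⟨⟨convex_univ, ?_⟩, m, m_le_Q hm⟩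
  intro x _ y _ s t hs ht hst
  obtain ⟨z, hz⟩ := attained ha hf.cont hm x
  obtain ⟨w, hw⟩ := attained ha hf.cont hm y
  rw [hz, hw, smul_eq_mul, smul_eq_mul]
  refine (Q_le hm _ (s • z + t • w)).trans ?_
  have h1 := hf.1.2 (mem_univ z) (mem_univ w) hs ht hst
  simp only [smul_eq_mul] at h1
  have h2 : ‖s • x + t • y - (s • z + t • w)‖ ^ 2 ≤ s * ‖x - z‖ ^ 2 + t * ‖y - w‖ ^ 2 := by
    have e : s • x + t • y - (s • z + t • w) = s • (x - z) + t • (y - w) := by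
      simp only [smul_sub]
      abel
    rw [e]
    have h3 : ‖s • (x - z) + t • (y - w)‖ ≤ s * ‖x - z‖ + t * ‖y - w‖ := by
      refine (norm_add_le _ _).trans ?_
      rw [norm_smul, norm_smul, Real.norm_of_nonneg hs, Real.norm_of_nonneg ht]
    have h4 : (s * ‖x - z‖ + t * ‖y - w‖) ^ 2 ≤ s * ‖x - z‖ ^ 2 + t * ‖y - w‖ ^ 2 := by
      have ht' : t = 1 - s := by linarith
      subst ht'
      nlinarith [mul_nonneg hs ht, sq_nonneg (‖x - z‖ - ‖y - w‖),
        mul_nonneg (mul_nonneg hs ht) (sq_nonneg (‖x - z‖ - ‖y - w‖))]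
    exact (pow_le_pow_left₀ (norm_nonneg _) h3 2).trans h4
  nlinarith [mul_le_mul_of_nonneg_left h2 (sq_nonneg a)]

/-- `Q f` is differentiable from above and from below -/
lemma Q_semi {a : ℝ} (ha : 0 < a) {f : E → ℝ} (hf : BB f) (y₀ : E) :
    ∃ p : E, ∀ w : E, Q a f y₀ + ⟪p, w⟫ ≤ Q a f (y₀ + w) ∧
      Q a f (y₀ + w) ≤ Q a f y₀ + ⟪p, w⟫ + a ^ 2 * ‖w‖ ^ 2 := by
  obtain ⟨m, hm⟩ := hf.2
  obtain ⟨z, hz⟩ := attained ha hf.cont hm y₀
  set p : E := (2 * a ^ 2) • (y₀ - z) with hp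
  have hup : ∀ w : E, Q a f (y₀ + w) ≤ Q a f y₀ + ⟪p, w⟫ + a ^ 2 * ‖w‖ ^ 2 := by
    intro w
    have h := Q_le (a := a) hm (y₀ + w) z
    have e : y₀ + w - z = (y₀ - z) + w := by abel
    rw [e, norm_add_sq_real] at h
    rw [hz, hp, inner_smul_left]
    simp only [conj_trivial]
    linarith
  refine ⟨p, fun w => ⟨?_, hup w⟩⟩
  apply le_of_forall_pos_le_add
  intro ε hε
  set t : ℝ := ε / (a ^ 2 * ‖w‖ ^ 2 + 1) with ht
  have ht0 : 0 < t := by positivity
  have ht1 : a ^ 2 * t * ‖w‖ ^ 2 ≤ ε := by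
    have h1 : t * (a ^ 2 * ‖w‖ ^ 2 + 1) = ε := div_mul_cancel₀ _ (by positivity)
    nlinarith
  have h1 := hup (-(t • w))
  rw [inner_neg_right, inner_smul_right, norm_neg, norm_smul, Real.norm_of_nonneg ht0.le] at h1
  have h2 := (Q_BB ha hf).1.2 (mem_univ (y₀ + w)) (mem_univ (y₀ + -(t • w)))
    (by positivity : (0:ℝ) ≤ t / (1 + t)) (by positivity : (0:ℝ) ≤ 1 / (1 + t)) (by field_simp; ring)
  have e : (t / (1 + t)) • (y₀ + w) + (1 / (1 + t)) • (y₀ + -(t • w)) = y₀ := by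
    rw [smul_add, smul_add, smul_neg, smul_smul]
    have e1 : (1 / (1 + t)) * t = t / (1 + t) := by ring
    rw [e1]
    have e2 : (t / (1 + t)) • y₀ + (1 / (1 + t)) • y₀ = y₀ := by
      rw [← add_smul]
      have : t / (1 + t) + 1 / (1 + t) = 1 := by
        field_simp
        ring
      rw [this, one_smul]
    calc (t / (1 + t)) • y₀ + (t / (1 + t)) • w + ((1 / (1 + t)) • y₀ + -((t / (1 + t)) • w))
        = (t / (1 + t)) • y₀ + (1 / (1 + t)) • y₀ := by abel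
      _ = y₀ := e2
  rw [e, smul_eq_mul, smul_eq_mul] at h2
  have h3 : (1 + t) * Q a f y₀ ≤ t * Q a f (y₀ + w) + Q a f (y₀ + -(t • w)) := by
    have := mul_le_mul_of_nonneg_left h2 (by positivity : (0:ℝ) ≤ 1 + t)
    refine this.trans (le_of_eq ?_)
    field_simp
  have h4 : t * (Q a f y₀ + ⟪p, w⟫) ≤ t * (Q a f (y₀ + w) + a ^ 2 * t * ‖w‖ ^ 2) := by nlinarith
  have h5 := le_of_mul_le_mul_left h4 ht0
  linarith

lemma infDist_convex {K : Set E} (hK : Convex ℝ K) (hc : IsClosed K) (hne : K.Nonempty) :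
    ConvexOn ℝ univ (fun x => Metric.infDist x K) := by
  haveI : ProperSpace E := FiniteDimensional.proper_real E
  refine ⟨convex_univ, ?_⟩
  intro x _ y _ s t hs ht hst
  obtain ⟨z, hz, hzx⟩ := hc.exists_infDist_eq_dist hne x
  obtain ⟨w, hw, hwy⟩ := hc.exists_infDist_eq_dist hne y
  simp only [smul_eq_mul]
  rw [hzx, hwy]
  refine (Metric.infDist_le_dist_of_mem (hK hz hw hs ht hst)).trans ?_
  rw [dist_eq_norm, dist_eq_norm, dist_eq_norm]
  have e : s • x + t • y - (s • z + t • w) = s • (x - z) + t • (y - w) := by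
    simp only [smul_sub]
    abel
  rw [e]
  refine (norm_add_le _ _).trans ?_
  rw [norm_smul, norm_smul, Real.norm_of_nonneg hs, Real.norm_of_nonneg ht]

end fin

variable [MeasurableSpace E] [BorelSpace E]

/-- the dual form of the inequality `T^-` with the cost `a^2 t^2` -/
def Tm (a : ℝ) (μ : Measure E) : Prop :=
  ∀ f : E → ℝ, BB f → Integrable f μ →
    Integrable (fun x => Real.exp (Q a f x)) μ ∧
      ∫ x, Real.exp (Q a f x) ∂μ ≤ Real.exp (∫ x, f x ∂μ)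

/-- the dual form of the inequality `T^+` with the cost `a^2 t^2` -/
def Tp (a : ℝ) (μ : Measure E) : Prop :=
  ∀ f : E → ℝ, BB f → Integrable (Q a f) μ ∧
    Real.exp (∫ x, Q a f x ∂μ) * ∫ x, Real.exp (-f x) ∂μ ≤ 1

variable [FiniteDimensional ℝ E]

lemma Tm_mono {a b : ℝ} {μ : Measure E} (hb : 0 < b) (hba : b ≤ a) (h : Tm a μ) : Tm b μ := by
  intro f hf hi
  obtain ⟨h1, h2⟩ := h f hf hi
  obtain ⟨m, hm⟩ := hf.2
  have hq : ∀ x, Q b f x ≤ Q a f x := Q_mono hm (by nlinarith)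
  have hi' : Integrable (fun x => Real.exp (Q b f x)) μ := by
    refine h1.mono' ((Real.continuous_exp.comp (Q_BB hb hf).cont).aestronglyMeasurable) ?_
    refine Eventually.of_forall fun x => ?_
    rw [Real.norm_of_nonneg (Real.exp_pos _).le]
    exact Real.exp_le_exp.2 (hq x)
  exact ⟨hi', (integral_mono hi' h1 fun x => Real.exp_le_exp.2 (hq x)).trans h2⟩

/-- exponential moments -/
lemma exp_moment {a : ℝ} (ha : 0 < a) {μ : Measure E} (hT : Tm a μ)
    (hi : Integrable (fun x : E => ‖x‖) μ) {β : ℝ} (hβ : 0 ≤ β) :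
    Integrable (fun x : E => Real.exp (β * ‖x‖)) μ ∧
      ∫ x, Real.exp (β * ‖x‖) ∂μ ≤ Real.exp (β * ∫ x, ‖x‖ ∂μ + β ^ 2 / (4 * a ^ 2)) := by
  have hf : BB (fun x : E => β * ‖x‖) := by
    refine ⟨?_, 0, fun x => by positivity⟩
    have := (convexOn_univ_norm (E := E)).smul hβ
    simpa using this
  obtain ⟨h1, h2⟩ := hT _ hf (hi.const_mul β)
  have hle : ∀ x : E, Real.exp (β * ‖x‖) ≤
      Real.exp (β ^ 2 / (4 * a ^ 2)) * Real.exp (Q a (fun x : E => β * ‖x‖) x) := by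
    intro x
    rw [← Real.exp_add]
    apply Real.exp_le_exp.2
    have := le_Q_of_lip ha (f := fun x : E => β * ‖x‖) (β := β) (fun x y => by
      have : ‖x‖ ≤ ‖y‖ + ‖x - y‖ := norm_le_norm_add_norm_sub' x y
      nlinarith) x
    linarith
  have h3 : Integrable (fun x : E => Real.exp (β * ‖x‖)) μ := by
    refine (h1.const_mul (Real.exp (β ^ 2 / (4 * a ^ 2)))).mono'
      (by fun_prop) (Eventually.of_forall fun x => ?_)
    rw [Real.norm_of_nonneg (Real.exp_pos _).le]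
    exact hle x
  refine ⟨h3, (integral_mono h3 (h1.const_mul _) hle).trans ?_⟩
  rw [integral_const_mul, add_comm, Real.exp_add]
  apply mul_le_mul_of_nonneg_left _ (Real.exp_pos _).le
  rw [integral_const_mul] at h2
  exact h2

end Pool.Agent.X139.WT
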