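import Pool.Agent.X139.WT.Basic

/-!
# The bound for the distance to a convex set
-/

set_option autoImplicit false

namespace Pool.Agent.X139.WT

open MeasureTheory Set Filter Topology
open scoped RealInnerProductSpace

variable {E : Type*} [NormedAddCommGroup E] [InnerProductSpace ℝ E] [FiniteDimensional ℝ E]
  [MeasurableSpace E] [BorelSpace E]

lemma int_of_exp {μ : Measure E} (h : Integrable (fun x : E => Real.exp (1 * ‖x‖)) μ) :
    Integrable (fun x : E => ‖x‖ ^ 2) μ := by
  refine (h.const_mul 2).mono' (by fun_prop) (Eventually.of_forall fun x => ?_)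
  rw [Real.norm_of_nonneg (by positivity), one_mul]
  have := Real.quadratic_le_exp_of_nonneg (norm_nonneg x)
  have := norm_nonneg x
  linarith

theorem cap {a R : ℝ} (ha : 0 < a) (hR : 0 ≤ R) {μ : Measure E} [IsProbabilityMeasure μ]
    (hT : Tm a μ) (hi : Integrable (fun x : E => ‖x‖) μ) (hi2 : Integrable (fun x : E => ‖x‖ ^ 2) μ) :
    ∃ C : ℝ, 0 ≤ C ∧ ∀ K : Set E, IsClosed K → Convex ℝ K → (∃ y ∈ K, ‖y‖ ≤ R) →
      Integrable (fun x => Metric.infDist x K ^ 2) μ ∧
        ∫ x, Metric.infDist x K ^ 2 ∂μ ≤ C * μ.real Kᶜ := by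
  set b : ℝ := Real.exp (-(1 / (4 * a ^ 2))) with hb
  have hb0 : 0 < b := Real.exp_pos _
  have hM : Integrable (fun x : E => (‖x‖ + R) ^ 2) μ := by
    have : Integrable (fun x : E => ‖x‖ ^ 2 + 2 * R * ‖x‖ + R ^ 2) μ :=
      (hi2.add (hi.const_mul (2 * R))).add (integrable_const _)
    refine this.congr (Eventually.of_forall fun x => ?_)
    simp only
    ring
  set M : ℝ := ∫ x, (‖x‖ + R) ^ 2 ∂μ with hMd
  have hM0 : 0 ≤ M := integral_nonneg fun x => by positivity
  refine ⟨8 / (3 * b) * (1 + 8 / b) + M * (4 / 3 * (M + 1)), by positivity, ?_⟩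
  intro K hKc hK ⟨y, hyK, hyR⟩
  set d : E → ℝ := fun x => Metric.infDist x K with hd
  have hd0 : ∀ x, 0 ≤ d x := fun x => Metric.infDist_nonneg
  have hdle : ∀ x, d x ≤ ‖x‖ + R := by
    intro x
    refine (Metric.infDist_le_dist_of_mem hyK).trans ?_
    rw [dist_eq_norm]
    exact (norm_sub_le _ _).trans (by linarith)
  have hdK : ∀ x ∈ K, d x = 0 := fun x hx => Metric.infDist_zero_of_mem hx
  have hdc : Continuous d := Metric.continuous_infDist_pt K
  have hi1 : Integrable d μ := by
    refine (hi.add (integrable_const R)).mono' hdc.aestronglyMeasurable (Eventually.of_forall fun x => ?_)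
    rw [Real.norm_of_nonneg (hd0 x)]
    exact hdle x
  have hI2 : Integrable (fun x => d x ^ 2) μ := by
    refine hM.mono' (hdc.pow 2).aestronglyMeasurable (Eventually.of_forall fun x => ?_)
    rw [Real.norm_of_nonneg (by positivity)]
    exact pow_le_pow_left₀ (hd0 x) (hdle x) 2
  refine ⟨hI2, ?_⟩
  show ∫ x, d x ^ 2 ∂μ ≤ _
  set I₂ : ℝ := ∫ x, d x ^ 2 ∂μ with hI2d
  set D : ℝ := ∫ x, d x ∂μ with hD
  set w : ℝ := μ.real Kᶜ with hw
  have hI0 : 0 ≤ I₂ := integral_nonneg fun x => by positivity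
  have hD0 : 0 ≤ D := integral_nonneg hd0
  have hw0 : 0 ≤ w := measureReal_nonneg
  have hIM : I₂ ≤ M := integral_mono hI2 hM fun x => pow_le_pow_left₀ (hd0 x) (hdle x) 2
  -- the indicator
  set χ : E → ℝ := Kᶜ.indicator 1 with hχ
  have hχi : Integrable χ μ := (integrable_const (1:ℝ)).indicator hKc.measurableSet.compl
  have hχw : ∫ x, χ x ∂μ = w := integral_indicator_one hKc.measurableSet.compl
  have hχK : ∀ x ∈ K, χ x = 0 := fun x hx => indicator_of_notMem (by simpa using hx) _
  have hχK' : ∀ x, x ∉ K → χ x = 1 := fun x hx => indicator_of_mem (s := Kᶜ) hx _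
  have hAM : ∀ c : ℝ, 0 < c → D ≤ c * w + 1 / (4 * c) * I₂ := by
    intro c hc
    have h1 : ∀ x, d x ≤ c * χ x + 1 / (4 * c) * d x ^ 2 := by
      intro x
      by_cases hx : x ∈ K
      · rw [hdK x hx, hχK x hx]
        simp
      · rw [hχK' x hx]
        have e : c * 1 + 1 / (4 * c) * d x ^ 2 - d x = 1 / (4 * c) * (d x - 2 * c) ^ 2 := by
          field_simp
          ring
        have : 0 ≤ 1 / (4 * c) * (d x - 2 * c) ^ 2 := by positivity
        linarith
    have h2 := integral_mono hi1 ((hχi.const_mul c).add (hI2.const_mul (1 / (4 * c)))) h1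
    have h3 : ∫ x, (c * χ x + 1 / (4 * c) * d x ^ 2) ∂μ = c * w + 1 / (4 * c) * I₂ := by
      rw [integral_add (hχi.const_mul c) (hI2.const_mul _), integral_const_mul, integral_const_mul, hχw]
    exact h2.trans (le_of_eq h3)
  have hBB : BB d := ⟨infDist_convex hK hKc ⟨y, hyK⟩, 0, hd0⟩
  obtain ⟨h1, h2⟩ := hT d hBB hi1
  have hpt : ∀ x, 1 + b / 2 * d x ^ 2 - χ x ≤ Real.exp (Q a d x) := by
    intro x
    have hQ0 : 0 ≤ Q a d x := m_le_Q hd0 x
    by_cases hx : x ∈ K
    · rw [hdK x hx, hχK x hx]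
      have := Real.one_le_exp hQ0
      simpa using this
    · rw [hχK' x hx]
      have h3 := le_Q_of_lip ha (f := d) (β := 1) (fun x y => by
        rw [one_mul, ← dist_eq_norm]
        exact Metric.infDist_le_infDist_add_dist) x
      have h4 : Real.exp (d x - 1 / (4 * a ^ 2)) ≤ Real.exp (Q a d x) := by
        apply Real.exp_le_exp.2
        simpa using h3
      have h5 : Real.exp (d x - 1 / (4 * a ^ 2)) = b * Real.exp (d x) := by
        rw [hb, ← Real.exp_add]
        congr 1
        ring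
      have h6 := Real.quadratic_le_exp_of_nonneg (hd0 x)
      have h7 : b * (1 + d x + d x ^ 2 / 2) ≤ b * Real.exp (d x) :=
        mul_le_mul_of_nonneg_left h6 hb0.le
      have h8 : 0 ≤ b * (1 + d x) := mul_nonneg hb0.le (by linarith [hd0 x])
      nlinarith
  have hint : 1 + b / 2 * I₂ - w ≤ Real.exp D := by
    have hA : Integrable (fun x => 1 + b / 2 * d x ^ 2) μ :=
      (integrable_const (1:ℝ)).add (hI2.const_mul (b / 2))
    have h3 := integral_mono (hA.sub hχi) h1 hpt
    have h4 : ∫ x, (1 + b / 2 * d x ^ 2 - χ x) ∂μ = 1 + b / 2 * I₂ - w := by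
      rw [integral_sub hA hχi,
        integral_add (integrable_const (1:ℝ)) (hI2.const_mul (b / 2)), integral_const_mul, hχw,
        integral_const, probReal_univ, one_smul]
    exact (le_of_eq h4.symm).trans (h3.trans h2)
  by_cases hD1 : D ≤ 1
  · have h3 := Real.abs_exp_sub_one_sub_id_le (x := D) (by rw [abs_of_nonneg hD0]; exact hD1)
    have h4 := (abs_le.1 h3).2
    have h5 : b / 2 * I₂ ≤ w + 2 * D := by nlinarith
    have h6 := hAM (4 / b) (by positivity)
    have h7 : 1 / (4 * (4 / b)) = b / 16 := by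
      field_simp
      norm_num
    rw [h7] at h6
    have h8 : 3 * b / 8 * I₂ ≤ (1 + 8 / b) * w := by
      have : 4 / b * w * 2 = 8 / b * w := by ring
      linarith
    have h9 : I₂ ≤ 8 / (3 * b) * (1 + 8 / b) * w := by
      have e : 8 / (3 * b) * (3 * b / 8 * I₂) = I₂ := by
        field_simp
      have := mul_le_mul_of_nonneg_left h8 (by positivity : 0 ≤ 8 / (3 * b))
      rw [e] at this
      linarith
    have h10 : 0 ≤ M * (4 / 3 * (M + 1)) * w := by positivity
    nlinarith
  · rw [not_le] at hD1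
    have h6 := hAM (M + 1) (by linarith)
    have h7 : 1 / (4 * (M + 1)) * I₂ ≤ 1 / 4 := by
      rw [one_div_mul_eq_div, div_le_div_iff₀ (by positivity) (by norm_num)]
      linarith
    have h8 : 1 ≤ 4 / 3 * (M + 1) * w := by linarith
    have h9 : M * 1 ≤ M * (4 / 3 * (M + 1) * w) := mul_le_mul_of_nonneg_left h8 hM0
    have h10 : 0 ≤ 8 / (3 * b) * (1 + 8 / b) * w := by positivity
    nlinarith

end Pool.Agent.X139.WT
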