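import Pool.Agent.X139.WT.Pos

/-!
# The inequality `T^+`
-/

set_option autoImplicit false

namespace Pool.Agent.X139.WT

open MeasureTheory Set Filter Topology Finset
open scoped RealInnerProductSpace

variable {E : Type*} [NormedAddCommGroup E] [InnerProductSpace ℝ E] [FiniteDimensional ℝ E]
  [MeasurableSpace E] [BorelSpace E]

lemma Q_int {b m : ℝ} (hb : 0 < b) {μ : Measure E} [IsProbabilityMeasure μ] {f : E → ℝ} (hf : BB f)
    (hm : ∀ x, m ≤ f x) (hi : Integrable (fun x : E => ‖x‖) μ)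
    (hi2 : Integrable (fun x : E => ‖x‖ ^ 2) μ) : Integrable (Q b f) μ := by
  have h1 : Integrable (fun x : E => |m| + |f 0| + b ^ 2 * ‖x‖ ^ 2) μ :=
    (integrable_const _).add (hi2.const_mul _)
  refine h1.mono' (Q_BB hb hf).cont.aestronglyMeasurable (Eventually.of_forall fun x => ?_)
  have h2 := m_le_Q (a := b) hm x
  have h3 := Q_le (a := b) hm x 0
  rw [sub_zero] at h3
  rw [Real.norm_eq_abs, abs_le]
  have h4 := neg_abs_le m
  have h5 := le_abs_self (f 0)
  have h6 := abs_nonneg (f 0)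
  have h7 := abs_nonneg m
  have h8 : 0 ≤ b ^ 2 * ‖x‖ ^ 2 := by positivity
  constructor <;> linarith

lemma exp_int {m : ℝ} {μ : Measure E} [IsProbabilityMeasure μ] {f : E → ℝ} (hf : BB f)
    (hm : ∀ x, m ≤ f x) : Integrable (fun x => Real.exp (-f x)) μ := by
  refine (integrable_const (Real.exp (-m))).mono'
    (Real.continuous_exp.comp hf.cont.neg).aestronglyMeasurable (Eventually.of_forall fun x => ?_)
  rw [Real.norm_of_nonneg (Real.exp_pos _).le]
  exact Real.exp_le_exp.2 (by linarith [hm x])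

/-- the integrated form of the pointwise bound, small slopes -/
lemma small_slope {b R κ C T : ℝ} (hb : 0 < b) {μ : Measure E} [IsProbabilityMeasure μ] {f : E → ℝ}
    (hf : BB f) (hi : Integrable (fun x : E => ‖x‖) μ) (hi2 : Integrable (fun x : E => ‖x‖ ^ 2) μ)
    (hi3 : Integrable (fun x : E => ‖x‖ ^ 2 * Real.exp (1 * ‖x‖)) μ)
    (hTd : ∫ x : E, ‖x‖ ^ 2 * Real.exp (1 * ‖x‖) ∂μ ≤ T)
    (hC0 : 0 ≤ C)
    (hcap : ∀ K : Set E, IsClosed K → Convex ℝ K → (∃ y ∈ K, ‖y‖ ≤ R) →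
      Integrable (fun x => Metric.infDist x K ^ 2) μ ∧
        ∫ x, Metric.infDist x K ^ 2 ∂μ ≤ C * μ.real Kᶜ)
    (hne : ∃ y, ‖y‖ ≤ R ∧ f y ≤ 0) (hR : 0 ≤ R) (hκ : 0 ≤ κ) (hκ1 : κ ≤ 1) (hκR : κ * R ≤ 2)
    (hlow : ∀ x, κ * (R - ‖x‖) ≤ f x)
    (hbC : b ^ 2 * (256 / 3 * C) ≤ 1 / 8) (hRT : 64 * T ≤ R ^ 2)
    (hhalf : 1 / 2 ≤ μ.real (Metric.closedBall (0 : E) (R / 2))) :
    0 ≤ ∫ x, (1 - Real.exp (-f x) - Q b f x) ∂μ := by
  obtain ⟨m, hm⟩ := hf.2
  have hnet : Integrable (fun x => 1 - Real.exp (-f x) - Q b f x) μ :=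
    ((integrable_const _).sub (exp_int hf hm)).sub (Q_int hb hf hm hi hi2)
  have hPi : Integrable (fun x => mm (f x) ^ 2) μ := by
    refine (integrable_const (1:ℝ)).mono' ((mm_cont.comp hf.cont).pow 2).aestronglyMeasurable
      (Eventually.of_forall fun x => ?_)
    rw [Real.norm_of_nonneg (sq_nonneg _)]
    exact pow_le_one₀ (mm_nonneg _) (mm_le_one _)
  set P : ℝ := ∫ x, mm (f x) ^ 2 ∂μ with hP
  have hP0 : 0 ≤ P := integral_nonneg fun x => sq_nonneg _
  have hLc : ∀ i, IsClosed (Lev f i) := fun i => isClosed_le hf.cont continuous_const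
  have hLconv : ∀ i, Convex ℝ (Lev f i) := fun i => by
    have := hf.1.convex_le ((1 / 2 : ℝ) ^ (i + 3))
    simpa [Lev] using this
  have hLne : ∀ i, ∃ y ∈ Lev f i, ‖y‖ ≤ R := fun i => by
    obtain ⟨y, hy, hy0⟩ := hne
    exact ⟨y, hy0.trans (by positivity), hy⟩
  have hDDi : ∀ N, Integrable (DD f N) μ := fun N => by
    apply integrable_finset_sum
    intro i _
    exact (hcap _ (hLc i) (hLconv i) (hLne i)).1.const_mul _
  have hDD : ∀ N, ∫ x, DD f N x ∂μ ≤ C * (256 / 3 * P) := fun N => by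
    have h1 : ∫ x, DD f N x ∂μ = ∑ i ∈ range N, (1 / 4) ^ i * ∫ x, Metric.infDist x (Lev f i) ^ 2 ∂μ := by
      unfold DD
      rw [integral_finset_sum]
      · exact Finset.sum_congr rfl fun i _ => integral_const_mul _ _
      · intro i _
        exact (hcap _ (hLc i) (hLconv i) (hLne i)).1.const_mul _
    have hind : ∀ i : ℕ, μ.real (Lev f i)ᶜ = ∫ x, (if f x ≤ (1 / 2) ^ (i + 3) then (0:ℝ) else 1) ∂μ := by
      intro i
      rw [← integral_indicator_one (hLc i).measurableSet.compl]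
      refine integral_congr_ae (Eventually.of_forall fun x => ?_)
      simp only
      by_cases hx : x ∈ Lev f i
      · have hx' : f x ≤ (1 / 2) ^ (i + 3) := hx
        rw [indicator_of_notMem (by simpa using hx), if_pos hx']
      · have hx' : ¬ f x ≤ (1 / 2) ^ (i + 3) := hx
        rw [indicator_of_mem (s := (Lev f i)ᶜ) hx, if_neg hx']
        rfl
    have hindi : ∀ i : ℕ, Integrable (fun x => if f x ≤ (1 / 2) ^ (i + 3) then (0:ℝ) else 1) μ := by
      intro i
      refine (integrable_const (1:ℝ)).mono' ?_ (Eventually.of_forall fun x => ?_)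
      · exact (Measurable.ite (hLc i).measurableSet measurable_const measurable_const).aestronglyMeasurable
      · split_ifs <;> norm_num
    have h2 : ∑ i ∈ range N, (1 / 4 : ℝ) ^ i * ∫ x, Metric.infDist x (Lev f i) ^ 2 ∂μ ≤
        ∑ i ∈ range N, (1 / 4 : ℝ) ^ i * (C * ∫ x, (if f x ≤ (1 / 2) ^ (i + 3) then (0:ℝ) else 1) ∂μ) := by
      apply Finset.sum_le_sum
      intro i _
      apply mul_le_mul_of_nonneg_left _ (by positivity)
      rw [← hind]
      exact (hcap _ (hLc i) (hLconv i) (hLne i)).2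
    have h3 : ∑ i ∈ range N, (1 / 4 : ℝ) ^ i * (C * ∫ x, (if f x ≤ (1 / 2) ^ (i + 3) then (0:ℝ) else 1) ∂μ) =
        C * ∫ x, (∑ i ∈ range N, (1 / 4 : ℝ) ^ i * (if f x ≤ (1 / 2) ^ (i + 3) then (0:ℝ) else 1)) ∂μ := by
      rw [integral_finset_sum, Finset.mul_sum]
      · refine Finset.sum_congr rfl fun i _ => ?_
        rw [integral_const_mul]
        ring
      · intro i _
        exact (hindi i).const_mul _
    rw [h1]
    refine h2.trans (h3.le.trans ?_)
    apply mul_le_mul_of_nonneg_left _ hC0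
    rw [hP, ← integral_const_mul]
    apply integral_mono
    · apply integrable_finset_sum
      intro i _
      exact (hindi i).const_mul _
    · exact hPi.const_mul _
    · intro x
      exact sum_levels (f x) N
  have hmain : ∀ N : ℕ, 1 ≤ N → 1 / 4 * P - b ^ 2 * (C * (256 / 3 * P)) - (1 / 4) ^ N - κ ^ 2 * T ≤
      ∫ x, (1 - Real.exp (-f x) - Q b f x) ∂μ := by
    intro N hN
    have hA : Integrable (fun x => 1 / 4 * mm (f x) ^ 2 - b ^ 2 * DD f N x) μ :=
      (hPi.const_mul _).sub ((hDDi N).const_mul _)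
    have hB : Integrable (fun x => 1 / 4 * mm (f x) ^ 2 - b ^ 2 * DD f N x - (1 / 4) ^ N) μ :=
      hA.sub (integrable_const _)
    have hD : Integrable (fun x : E => κ ^ 2 * (‖x‖ ^ 2 * Real.exp (1 * ‖x‖))) μ := hi3.const_mul _
    have h1 := integral_mono (hB.sub hD) hnet (fun x => net_bound (a := b) hf
      (by obtain ⟨y, -, hy⟩ := hne; exact ⟨y, hy⟩) hR hκ hκ1 hlow hN x)
    have h2 : ∫ x, (1 / 4 * mm (f x) ^ 2 - b ^ 2 * DD f N x - (1 / 4) ^ N -
        κ ^ 2 * (‖x‖ ^ 2 * Real.exp (1 * ‖x‖))) ∂μ =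
        1 / 4 * P - b ^ 2 * ∫ x, DD f N x ∂μ - (1 / 4) ^ N -
          κ ^ 2 * ∫ x : E, ‖x‖ ^ 2 * Real.exp (1 * ‖x‖) ∂μ := by
      rw [integral_sub hB hD, integral_sub hA (integrable_const _),
        integral_sub (hPi.const_mul _) ((hDDi N).const_mul _), integral_const_mul, integral_const_mul,
        integral_const_mul, integral_const, probReal_univ, one_smul]
    have h3 := mul_le_mul_of_nonneg_left (hDD N) (sq_nonneg b)
    have h4 := mul_le_mul_of_nonneg_left hTd (sq_nonneg κ)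
    refine le_trans ?_ ((le_of_eq h2.symm).trans h1)
    linarith
  have hlim : 1 / 4 * P - b ^ 2 * (C * (256 / 3 * P)) - κ ^ 2 * T ≤
      ∫ x, (1 - Real.exp (-f x) - Q b f x) ∂μ := by
    have h1 : Tendsto (fun N : ℕ => 1 / 4 * P - b ^ 2 * (C * (256 / 3 * P)) - (1 / 4 : ℝ) ^ N - κ ^ 2 * T)
        atTop (𝓝 (1 / 4 * P - b ^ 2 * (C * (256 / 3 * P)) - 0 - κ ^ 2 * T)) :=
      ((tendsto_pow_atTop_nhds_zero_of_lt_one (by norm_num) (by norm_num)).const_sub _).sub_const _
    rw [sub_zero] at h1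
    exact le_of_tendsto h1 (eventually_atTop.2 ⟨1, hmain⟩)
  -- the lower bound for `P`
  have hPlow : (κ * R / 2) ^ 2 / 2 ≤ P := by
    have hi' : Integrable ((Metric.closedBall (0 : E) (R / 2)).indicator
        (fun _ => (κ * R / 2) ^ 2)) μ :=
      (integrable_const _).indicator Metric.isClosed_closedBall.measurableSet
    have h1 := integral_mono hi' hPi (fun x => by
      by_cases hx : x ∈ Metric.closedBall (0 : E) (R / 2)
      · rw [indicator_of_mem hx]
        have hx' : ‖x‖ ≤ R / 2 := by simpa using hx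
        have h2 : κ * R / 2 ≤ f x := by
          have := hlow x
          nlinarith
        have h3 : 0 ≤ κ * R / 2 := by positivity
        have h4 : κ * R / 2 ≤ mm (f x) := by
          rw [← mm_of_mem h3 (by linarith)]
          exact mm_mono h2
        exact pow_le_pow_left₀ h3 h4 2
      · rw [indicator_of_notMem hx]
        exact sq_nonneg _)
    rw [integral_indicator_const _ Metric.isClosed_closedBall.measurableSet, smul_eq_mul] at h1
    have h2 := mul_le_mul_of_nonneg_right hhalf (sq_nonneg (κ * R / 2))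
    linarith
  have h1 : b ^ 2 * (C * (256 / 3 * P)) ≤ 1 / 8 * P := by
    have := mul_le_mul_of_nonneg_right hbC hP0
    linarith
  have h2 : κ ^ 2 * (64 * T) ≤ κ ^ 2 * R ^ 2 := mul_le_mul_of_nonneg_left hRT (sq_nonneg κ)
  nlinarith

lemma Q_comp {a₁ b a' m : ℝ} (ha₁ : 0 < a₁) {f : E → ℝ} (hf : BB f) (hm : ∀ x, m ≤ f x)
    (h1 : 2 * a' ^ 2 ≤ a₁ ^ 2) (h2 : 2 * a' ^ 2 ≤ b ^ 2) (x : E) :
    Q a' f x ≤ Q b (Q a₁ f) x := by
  apply le_Q
  intro y
  obtain ⟨z, hz⟩ := attained ha₁ hf.cont hm y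
  rw [hz]
  refine (Q_le hm x z).trans ?_
  have h3 : ‖x - z‖ ≤ ‖x - y‖ + ‖y - z‖ := by
    have := norm_add_le (x - y) (y - z)
    rwa [sub_add_sub_cancel] at this
  have h4 : ‖x - z‖ ^ 2 ≤ 2 * ‖x - y‖ ^ 2 + 2 * ‖y - z‖ ^ 2 := by
    have := pow_le_pow_left₀ (norm_nonneg _) h3 2
    nlinarith [sq_nonneg (‖x - y‖ - ‖y - z‖)]
  nlinarith [mul_le_mul_of_nonneg_left h4 (sq_nonneg a'), mul_le_mul_of_nonneg_right h1 (sq_nonneg ‖y - z‖),
    mul_le_mul_of_nonneg_right h2 (sq_nonneg ‖x - y‖)]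

/-- the slope at a minimum over a ball -/
lemma slope {a R : ℝ} (hR : 0 ≤ R) {f : E → ℝ} {y₀ p : E} (hy : ‖y₀‖ ≤ R)
    (hmin : ∀ y, ‖y‖ ≤ R → f y₀ ≤ f y)
    (hp : ∀ w : E, f y₀ + ⟪p, w⟫ ≤ f (y₀ + w) ∧ f (y₀ + w) ≤ f y₀ + ⟪p, w⟫ + a ^ 2 * ‖w‖ ^ 2) (x : E) :
    f y₀ + ‖p‖ * (R - ‖x‖) ≤ f x := by
  have h1 : ∀ y, ‖y‖ ≤ R → 0 ≤ ⟪p, y - y₀⟫ := by
    intro y hyR
    apply le_of_forall_pos_le_add
    intro ε hε
    set t : ℝ := min 1 (ε / (a ^ 2 * ‖y - y₀‖ ^ 2 + 1)) with ht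
    have ht0 : 0 < t := lt_min one_pos (by positivity)
    have ht1 : t ≤ 1 := min_le_left _ _
    have ht2 : t * (a ^ 2 * ‖y - y₀‖ ^ 2) ≤ ε := by
      have h2 : t ≤ ε / (a ^ 2 * ‖y - y₀‖ ^ 2 + 1) := min_le_right _ _
      rw [le_div_iff₀ (by positivity)] at h2
      nlinarith
    have h3 := hmin (y₀ + t • (y - y₀)) (by
      have e : y₀ + t • (y - y₀) = (1 - t) • y₀ + t • y := by
        rw [smul_sub, sub_smul, one_smul]
        abel
      rw [e]
      refine (norm_add_le _ _).trans ?_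
      rw [norm_smul, norm_smul, Real.norm_of_nonneg ht0.le, Real.norm_of_nonneg (by linarith)]
      nlinarith)
    have h4 := (hp (t • (y - y₀))).2
    rw [inner_smul_right, norm_smul, Real.norm_of_nonneg ht0.le] at h4
    have h5 : 0 ≤ t * (⟪p, y - y₀⟫ + t * (a ^ 2 * ‖y - y₀‖ ^ 2)) := by nlinarith
    have h6 := nonneg_of_mul_nonneg_right h5 ht0
    linarith
  have h2 : ⟪p, y₀⟫ ≤ -(R * ‖p‖) := by
    by_cases hp0 : p = 0
    · rw [hp0]
      simp
    · have hp1 : 0 < ‖p‖ := norm_pos_iff.2 hp0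
      have h3 := h1 (-((R / ‖p‖) • p)) (by
        rw [norm_neg, norm_smul, Real.norm_of_nonneg (by positivity), div_mul_cancel₀ _ hp1.ne'])
      rw [inner_sub_right, inner_neg_right, inner_smul_right, real_inner_self_eq_norm_sq] at h3
      have h4 : R / ‖p‖ * ‖p‖ ^ 2 = R * ‖p‖ := by
        field_simp
      rw [h4] at h3
      linarith
  have h3 := (hp (x - y₀)).1
  rw [add_sub_cancel, inner_sub_right] at h3
  have h4 : -(‖p‖ * ‖x‖) ≤ ⟪p, x⟫ := (abs_le.1 (abs_real_inner_le_norm p x)).1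
  linarith

theorem Tp_of_Tm {a : ℝ} (ha : 0 < a) {μ : Measure E} [IsProbabilityMeasure μ] (hT : Tm a μ)
    (hi : Integrable (fun x : E => ‖x‖) μ) : ∃ a' : ℝ, 0 < a' ∧ a' ≤ a ∧ Tp a' μ := by
  haveI : ProperSpace E := FiniteDimensional.proper_real E
  have e1 := exp_moment ha hT hi (β := 1) zero_le_one
  have e2 := exp_moment ha hT hi (β := 2) zero_le_two
  have hi2 := int_of_exp e1.1
  have hi3 : Integrable (fun x : E => ‖x‖ ^ 2 * Real.exp (1 * ‖x‖)) μ := by
    refine (e2.1.const_mul 2).mono' (by fun_prop) (Eventually.of_forall fun x => ?_)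
    rw [Real.norm_of_nonneg (by positivity), one_mul]
    have h1 := Real.quadratic_le_exp_of_nonneg (norm_nonneg x)
    have h2 := norm_nonneg x
    have h3 : Real.exp (2 * ‖x‖) = Real.exp ‖x‖ * Real.exp ‖x‖ := by
      rw [← Real.exp_add]
      congr 1
      ring
    rw [h3, ← mul_assoc]
    apply mul_le_mul_of_nonneg_right _ (Real.exp_pos _).le
    linarith
  set m₁ : ℝ := ∫ x : E, ‖x‖ ∂μ with hm1
  set M : ℝ := ∫ x : E, ‖x‖ ^ 2 ∂μ with hM
  set T : ℝ := ∫ x : E, ‖x‖ ^ 2 * Real.exp (1 * ‖x‖) ∂μ with hTT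
  have hm10 : 0 ≤ m₁ := integral_nonneg fun x => norm_nonneg x
  have hM0 : 0 ≤ M := integral_nonneg fun x => by positivity
  have hT0 : 0 ≤ T := integral_nonneg fun x => by positivity
  set R : ℝ := 1 + 4 * m₁ + 64 * T with hR
  have hR1 : 1 ≤ R := by linarith
  have hR0 : 0 < R := by linarith
  have hRT : 64 * T ≤ R ^ 2 := by nlinarith
  have hhalf : 1 / 2 ≤ μ.real (Metric.closedBall (0 : E) (R / 2)) := by
    have hms : MeasurableSet (Metric.closedBall (0 : E) (R / 2)) := Metric.isClosed_closedBall.measurableSet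
    have h1 : (R / 2) * μ.real (Metric.closedBall (0 : E) (R / 2))ᶜ ≤ m₁ := by
      have h2 : Integrable ((Metric.closedBall (0 : E) (R / 2))ᶜ.indicator (fun _ => R / 2)) μ :=
        (integrable_const _).indicator hms.compl
      have h3 := integral_mono h2 hi (fun x => by
        by_cases hx : x ∈ (Metric.closedBall (0 : E) (R / 2))ᶜ
        · rw [indicator_of_mem hx]
          have : ¬ ‖x‖ ≤ R / 2 := by simpa using hx
          exact (not_le.1 this).le
        · rw [indicator_of_notMem hx]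
          exact norm_nonneg x)
      rw [integral_indicator_const _ hms.compl, smul_eq_mul] at h3
      linarith
    have h2 := probReal_compl_eq_one_sub (μ := μ) hms
    rw [h2] at h1
    nlinarith
  obtain ⟨C, hC0, hcap⟩ := cap ha hR0.le hT hi hi2
  -- the scale
  set L : ℝ := 1 + 8 * (256 / 3 * C) + 12 / a ^ 2 + 24 * a ^ 2 * (M + R ^ 2) * R ^ 2 with hL
  have hL1 : 0 ≤ 8 * (256 / 3 * C) := by positivity
  have hL2 : 0 < 12 / a ^ 2 := by positivity
  have hL3 : 0 ≤ 24 * a ^ 2 * (M + R ^ 2) * R ^ 2 := by positivity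
  have hL0 : 1 ≤ L := by linarith
  set b : ℝ := 1 / L with hb
  have hb0 : 0 < b := by positivity
  have hbL : b * L = 1 := by rw [hb]; field_simp
  have hb1 : b ≤ 1 := by nlinarith
  have hb2 : b ^ 2 ≤ b := by nlinarith
  have hbC : b ^ 2 * (256 / 3 * C) ≤ 1 / 8 := by
    have h1 : b ^ 2 * (256 / 3 * C) ≤ b * (256 / 3 * C) := mul_le_mul_of_nonneg_right hb2 (by positivity)
    have h2 : b * (8 * (256 / 3 * C)) ≤ b * L := mul_le_mul_of_nonneg_left (by linarith) hb0.le
    linarith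
  have hba : 3 * b ^ 2 ≤ a ^ 2 / 4 := by
    have h2 : b * (12 / a ^ 2) ≤ b * L := mul_le_mul_of_nonneg_left (by linarith) hb0.le
    rw [hbL, mul_div_assoc', div_le_one (by positivity)] at h2
    linarith
  have hbM : 24 * a ^ 2 * b ^ 2 * (M + R ^ 2) * R ^ 2 ≤ 1 := by
    have h1 : b ^ 2 * (24 * a ^ 2 * (M + R ^ 2) * R ^ 2) ≤ b * (24 * a ^ 2 * (M + R ^ 2) * R ^ 2) :=
      mul_le_mul_of_nonneg_right hb2 hL3
    have h2 : b * (24 * a ^ 2 * (M + R ^ 2) * R ^ 2) ≤ b * L :=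
      mul_le_mul_of_nonneg_left (by linarith) hb0.le
    linarith
  set a₁ : ℝ := a / 2 with ha1
  have ha10 : 0 < a₁ := by positivity
  set a' : ℝ := min a₁ b / 2 with ha'
  have hmin0 : 0 < min a₁ b := lt_min ha10 hb0
  have ha'0 : 0 < a' := by positivity
  have hk1 : a' ≤ a₁ / 2 := by have := min_le_left a₁ b; linarith
  have hk2 : a' ≤ b / 2 := by have := min_le_right a₁ b; linarith
  refine ⟨a', ha'0, by linarith, ?_⟩
  intro φ hφ
  obtain ⟨m, hm⟩ := hφ.2
  refine ⟨Q_int ha'0 hφ hm hi hi2, ?_⟩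
  have hψ : BB (Q a₁ φ) := Q_BB ha10 hφ
  have hmψ : ∀ x, m ≤ Q a₁ φ x := m_le_Q hm
  obtain ⟨y₀, hy₀, hmin⟩ := (isCompact_closedBall (0:E) R).exists_isMinOn
    ⟨0, Metric.mem_closedBall_self hR0.le⟩ hψ.cont.continuousOn
  have hy₀' : ‖y₀‖ ≤ R := by simpa using hy₀
  obtain ⟨p, hp⟩ := Q_semi ha10 hφ y₀
  set c : ℝ := Q a₁ φ y₀ with hc
  set f : E → ℝ := fun x => Q a₁ φ x - c with hf
  have hmf : ∀ x, m - c ≤ f x := fun x => by simp only [hf]; linarith [hmψ x]
  have hfBB : BB f := by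
    refine ⟨?_, m - c, hmf⟩
    have := hψ.1.sub (concaveOn_const c convex_univ)
    exact this
  have hlow : ∀ x, ‖p‖ * (R - ‖x‖) ≤ f x := by
    intro x
    have := slope (a := a₁) hR0.le hy₀' (fun y hy => hmin (by simpa using hy)) hp x
    simp only [hf]
    linarith
  have hfy : f y₀ = 0 := by simp only [hf]; linarith
  have hfup : ∀ w, f (y₀ + w) ≤ ⟪p, w⟫ + a₁ ^ 2 * ‖w‖ ^ 2 := fun w => by
    have := (hp w).2
    simp only [hf]
    linarith
  have hQi : Integrable (Q b f) μ := Q_int hb0 hfBB hmf hi hi2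
  have hZi : Integrable (fun x => Real.exp (-f x)) μ := exp_int hfBB hmf
  set κ : ℝ := ‖p‖ with hκ
  have hκ0 : 0 ≤ κ := norm_nonneg _
  have hcore : Real.exp (∫ x, Q b f x ∂μ) * ∫ x, Real.exp (-f x) ∂μ ≤ 1 := by
    set Z : ℝ := ∫ x, Real.exp (-f x) ∂μ with hZ
    rcases le_or_gt (κ * R) 1 with h | h
    · have hκ1 : κ ≤ 1 := by nlinarith
      have h1 := small_slope hb0 hfBB hi hi2 hi3 le_rfl hC0 hcap ⟨y₀, hy₀', hfy.le⟩ hR0.le hκ0 hκ1
        (by linarith) hlow hbC hRT hhalf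
      have hA : Integrable (fun x => 1 - Real.exp (-f x)) μ := (integrable_const (1:ℝ)).sub hZi
      rw [integral_sub hA hQi, integral_sub (integrable_const (1:ℝ)) hZi, integral_const, probReal_univ,
        one_smul] at h1
      have hZ0 : 0 ≤ Z := integral_nonneg fun x => (Real.exp_pos _).le
      have h2 : Real.exp (∫ x, Q b f x ∂μ) ≤ Real.exp (1 - Z) := Real.exp_le_exp.2 (by linarith)
      have h3 : Z ≤ Real.exp (Z - 1) := by
        have := Real.add_one_le_exp (Z - 1)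
        linarith
      calc Real.exp (∫ x, Q b f x ∂μ) * Z ≤ Real.exp (1 - Z) * Real.exp (Z - 1) :=
            mul_le_mul h2 h3 hZ0 (Real.exp_pos _).le
        _ = 1 := by
            rw [← Real.exp_add]
            simp
    · have hZle : Z ≤ Real.exp (κ ^ 2 / (4 * a ^ 2)) := by
        have e3 := exp_moment ha hT hi hκ0
        have h1 : Z ≤ ∫ x : E, Real.exp (-(κ * R)) * Real.exp (κ * ‖x‖) ∂μ := by
          refine integral_mono hZi (e3.1.const_mul _) fun x => ?_
          simp only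
          rw [← Real.exp_add]
          exact Real.exp_le_exp.2 (by linarith [hlow x])
        rw [integral_const_mul] at h1
        refine h1.trans ((mul_le_mul_of_nonneg_left e3.2 (Real.exp_pos _).le).trans ?_)
        rw [← Real.exp_add]
        apply Real.exp_le_exp.2
        nlinarith
      have hQle : ∫ x, Q b f x ∂μ ≤ -(κ ^ 2 / (4 * a ^ 2)) := by
        set s : ℝ := 1 / (2 * a ^ 2) with hs
        have hs0 : 0 < s := by positivity
        have h1 : ∀ x, Q b f x ≤ (-(s * κ ^ 2) + a₁ ^ 2 * s ^ 2 * κ ^ 2 + 3 * b ^ 2 * (R ^ 2 + s ^ 2 * κ ^ 2)) +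
            3 * b ^ 2 * ‖x‖ ^ 2 := by
          intro x
          refine (Q_le hmf x (y₀ + -(s • p))).trans ?_
          have h2 := hfup (-(s • p))
          rw [inner_neg_right, inner_smul_right, real_inner_self_eq_norm_sq, norm_neg, norm_smul,
            Real.norm_of_nonneg hs0.le] at h2
          have h3 : ‖x - (y₀ + -(s • p))‖ ≤ ‖x‖ + R + s * κ := by
            have e : x - (y₀ + -(s • p)) = x - y₀ + s • p := by abel
            rw [e]
            refine (norm_add_le _ _).trans ?_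
            rw [norm_smul, Real.norm_of_nonneg hs0.le]
            have := norm_sub_le x y₀
            linarith
          have h4 : ‖x - (y₀ + -(s • p))‖ ^ 2 ≤ 3 * (‖x‖ ^ 2 + R ^ 2 + s ^ 2 * κ ^ 2) := by
            have := pow_le_pow_left₀ (norm_nonneg _) h3 2
            nlinarith [sq_nonneg (‖x‖ - R), sq_nonneg (R - s * κ), sq_nonneg (‖x‖ - s * κ)]
          have h5 := mul_le_mul_of_nonneg_left h4 (sq_nonneg b)
          nlinarith
        have h2 := integral_mono hQi ((integrable_const _).add (hi2.const_mul (3 * b ^ 2))) h1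
        have h3 : ∫ x : E, ((-(s * κ ^ 2) + a₁ ^ 2 * s ^ 2 * κ ^ 2 + 3 * b ^ 2 * (R ^ 2 + s ^ 2 * κ ^ 2)) +
            3 * b ^ 2 * ‖x‖ ^ 2) ∂μ =
            (-(s * κ ^ 2) + a₁ ^ 2 * s ^ 2 * κ ^ 2 + 3 * b ^ 2 * (R ^ 2 + s ^ 2 * κ ^ 2)) + 3 * b ^ 2 * M := by
          rw [integral_add (integrable_const _) (hi2.const_mul (3 * b ^ 2)), integral_const, probReal_univ,
            one_smul, integral_const_mul]
        refine h2.trans ((le_of_eq h3).trans ?_)
        have h4 : (a₁ ^ 2 + 3 * b ^ 2) * s ^ 2 * κ ^ 2 ≤ κ ^ 2 / (8 * a ^ 2) := by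
          have h5 : a₁ ^ 2 + 3 * b ^ 2 ≤ a ^ 2 / 2 := by
            rw [ha1]
            nlinarith
          have h6 := mul_le_mul_of_nonneg_right h5 (by positivity : 0 ≤ s ^ 2 * κ ^ 2)
          have h7 : a ^ 2 / 2 * (s ^ 2 * κ ^ 2) = κ ^ 2 / (8 * a ^ 2) := by
            rw [hs]
            field_simp
            ring
          linarith
        have h5 : 3 * b ^ 2 * (M + R ^ 2) ≤ κ ^ 2 / (8 * a ^ 2) := by
          rw [le_div_iff₀ (by positivity)]
          have h6 : 1 ≤ (κ * R) ^ 2 := by nlinarith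
          have h7 : (3 * b ^ 2 * (M + R ^ 2) * (8 * a ^ 2)) * R ^ 2 ≤ κ ^ 2 * R ^ 2 := by
            rw [← mul_pow]
            refine le_trans (le_of_eq ?_) (hbM.trans h6)
            ring
          exact le_of_mul_le_mul_right h7 (by positivity)
        have h6 : s * κ ^ 2 = κ ^ 2 / (2 * a ^ 2) := by
          rw [hs]
          ring
        have h7 : κ ^ 2 / (2 * a ^ 2) = 4 * (κ ^ 2 / (8 * a ^ 2)) := by ring
        have h8 : κ ^ 2 / (4 * a ^ 2) = 2 * (κ ^ 2 / (8 * a ^ 2)) := by ring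
        rw [h8]
        rw [h7] at h6
        nlinarith
      calc Real.exp (∫ x, Q b f x ∂μ) * Z ≤
            Real.exp (-(κ ^ 2 / (4 * a ^ 2))) * Real.exp (κ ^ 2 / (4 * a ^ 2)) :=
            mul_le_mul (Real.exp_le_exp.2 hQle) hZle (integral_nonneg fun x => (Real.exp_pos _).le)
              (Real.exp_pos _).le
        _ = 1 := by
            rw [← Real.exp_add]
            simp
  have hfin1 : ∫ x, Q a' φ x ∂μ ≤ ∫ x, Q b f x ∂μ + c := by
    have h1 : ∀ x, Q a' φ x ≤ Q b f x + c := by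
      intro x
      have h2 := Q_comp (b := b) (a' := a') ha10 hφ hm (by nlinarith) (by nlinarith) x
      have h3 := Q_sub_const (a := b) hmψ c x
      simp only [hf]
      linarith
    have h2 : ∫ x, Q a' φ x ∂μ ≤ ∫ x, (Q b f x + c) ∂μ :=
      integral_mono (Q_int ha'0 hφ hm hi hi2) (hQi.add (integrable_const c)) h1
    refine h2.trans (le_of_eq ?_)
    rw [integral_add hQi (integrable_const c), integral_const, probReal_univ, one_smul]
  have hfin2 : ∫ x, Real.exp (-φ x) ∂μ ≤ Real.exp (-c) * ∫ x, Real.exp (-f x) ∂μ := by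
    rw [← integral_const_mul]
    refine integral_mono (exp_int hφ hm) (hZi.const_mul _) fun x => ?_
    simp only
    rw [← Real.exp_add]
    apply Real.exp_le_exp.2
    have := Q_le_self (a := a₁) hm x
    simp only [hf]
    linarith
  calc Real.exp (∫ x, Q a' φ x ∂μ) * ∫ x, Real.exp (-φ x) ∂μ
      ≤ Real.exp (∫ x, Q b f x ∂μ + c) * (Real.exp (-c) * ∫ x, Real.exp (-f x) ∂μ) :=
        mul_le_mul (Real.exp_le_exp.2 hfin1) hfin2 (integral_nonneg fun x => (Real.exp_pos _).le)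
          (Real.exp_pos _).le
    _ = Real.exp (∫ x, Q b f x ∂μ) * ∫ x, Real.exp (-f x) ∂μ := by
        rw [Real.exp_add, ← mul_assoc, mul_assoc (Real.exp _) (Real.exp c), ← Real.exp_add]
        simp
    _ ≤ 1 := hcore

end Pool.Agent.X139.WT
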