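import Pool.Agent.X139.WT.Ker
import Pool.Agent.X139.WT.Main

/-!
# From test functions to couplings: the inequality `T^+`
-/

set_option autoImplicit false

namespace Pool.Agent.X139.WT

open MeasureTheory Set Filter Topology Finset ProbabilityTheory
open scoped RealInnerProductSpace ENNReal NNReal

variable {E : Type*} [NormedAddCommGroup E] [InnerProductSpace ℝ E] [FiniteDimensional ℝ E]
  [MeasurableSpace E] [BorelSpace E]

lemma gibbs {a : ℝ} {μ ν : Measure E} [IsProbabilityMeasure μ] [IsProbabilityMeasure ν]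
    (hT : Tp a μ) (hac : ν ≪ μ) (hllr : Integrable (llr ν μ) ν) {f : E → ℝ} (hf : BB f)
    (hfi : Integrable f ν) :
    ∫ x, Q a f x ∂μ ≤ ∫ x, f x ∂ν + (InformationTheory.klDiv ν μ).toReal := by
  obtain ⟨m, hm⟩ := hf.2
  obtain ⟨hQi, h⟩ := hT f hf
  have hZi : Integrable (fun x => Real.exp (-f x)) μ := exp_int hf hm
  have hZ0 : 0 < ∫ x, Real.exp (-f x) ∂μ := integral_exp_pos hZi
  have h1 : ∫ x, Q a f x ∂μ ≤ -Real.log (∫ x, Real.exp (-f x) ∂μ) := by
    have h2 := Real.log_le_log (mul_pos (Real.exp_pos _) hZ0) h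
    rw [Real.log_mul (Real.exp_pos _).ne' hZ0.ne', Real.log_exp, Real.log_one] at h2
    linarith
  have hac' : ν ≪ μ.tilted (fun x => -f x) := hac.trans (absolutelyContinuous_tilted hZi)
  haveI : IsProbabilityMeasure (μ.tilted (fun x => -f x)) := isProbabilityMeasure_tilted hZi
  have hfn : Integrable (fun x => -f x) ν := hfi.neg
  have h3 := InformationTheory.integral_llr_add_sub_measure_univ_nonneg hac'
    (integrable_llr_tilted_right hac hfn hllr hZi)
  have h4 := integral_llr_tilted_right hac hfn hZi hllr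
  rw [h4] at h3
  rw [InformationTheory.toReal_klDiv_of_measure_eq hac (by simp)]
  simp only [probReal_univ] at h3
  rw [integral_neg] at h3
  linarith

theorem TPlus_of_Tp {a : ℝ} (ha : 0 < a) {μ : Measure E} [IsProbabilityMeasure μ] (hT : Tp a μ)
    (hi : Integrable (fun x : E => x) μ) (hi2 : Integrable (fun x : E => ‖x‖ ^ 2) μ) :
    TPlus a μ := by
  intro ν hν hνn
  by_cases hk : InformationTheory.klDiv ν μ = ∞
  · rw [hk]
    exact le_top
  obtain ⟨hac, hllr⟩ := InformationTheory.klDiv_ne_top_iff.1 hk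
  have hνi : Integrable (fun x : E => x) ν :=
    (integrable_norm_iff measurable_id.aestronglyMeasurable).1 hνn
  set H : ℝ := (InformationTheory.klDiv ν μ).toReal with hH
  have hH0 : 0 ≤ H := ENNReal.toReal_nonneg
  apply ENNReal.le_of_forall_pos_le_add
  intro ε hε _
  have hε0 : (0:ℝ) < ε := by exact_mod_cast hε
  obtain ⟨s, hsi, hs⟩ := approx_sq hi2 (δ := ε / (2 * a ^ 2)) (by positivity)
  set n₁ : ℝ := ∫ y : E, ‖y‖ ∂ν with hn1
  have hn10 : 0 ≤ n₁ := integral_nonneg fun y => norm_nonneg y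
  set B : ℝ := ∑ j : idx μ s, (‖mean μ s j‖ + n₁ / wt μ s j) with hB
  have hterm : ∀ j : idx μ s, 0 ≤ ‖mean μ s j‖ + n₁ / wt μ s j := fun j =>
    add_nonneg (norm_nonneg _) (div_nonneg hn10 (wt_pos j).le)
  have hB0 : 0 ≤ B := Finset.sum_nonneg fun j _ => hterm j
  set L : ℝ := 2 * a ^ 2 * B with hL
  have hL0 : 0 ≤ L := by positivity
  obtain ⟨t, ht⟩ := approx_one hνi (δ := ε / (4 * L + 1)) (by positivity)
  have htL : 2 * L * ∫ x, ‖x - t x‖ ∂ν ≤ ε / 2 := by
    have h1 : 2 * L * ∫ x, ‖x - t x‖ ∂ν ≤ 2 * L * (ε / (4 * L + 1)) :=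
      mul_le_mul_of_nonneg_left ht (by positivity)
    have h2 : 2 * L * (ε / (4 * L + 1)) ≤ ε / 2 := by
      rw [mul_div_assoc', div_le_div_iff₀ (by positivity) (by norm_num)]
      nlinarith
    linarith
  obtain ⟨P, hP, f, hf, hfL, hcost⟩ := dual_fun ha (μ := fun j : idx μ s => wt μ s j)
    (ν := fun i : idx ν t => wt ν t i) (fun j => wt_pos j) sum_wt (fun i => (wt_pos i).le) sum_wt
    (fun j => mean μ s j) (fun i => mean ν t i) (B := B) hB0 (by
      intro j
      refine le_trans ?_ (Finset.single_le_sum (f := fun j : idx μ s => ‖mean μ s j‖ + n₁ / wt μ s j)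
        (fun j _ => hterm j) (Finset.mem_univ j))
      have h1 : ∑ i : idx ν t, wt ν t i * ‖mean ν t i‖ ≤ n₁ := by
        rw [hn1, part (s := t) hνn]
        exact Finset.sum_le_sum fun i _ => wt_norm_mean hνi i
      have h2 := div_le_div_of_nonneg_right h1 (wt_pos j).le
      linarith)
  obtain ⟨m, hm⟩ := hf.2
  have hfi : Integrable f ν := by
    refine ((integrable_const (|m| + |f 0|)).add (hνn.const_mul L)).mono'
      hf.cont.aestronglyMeasurable (Eventually.of_forall fun x => ?_)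
    have h1 := hfL x 0
    rw [sub_zero] at h1
    have h2 := hm x
    have h3 := neg_abs_le m
    have h4 := le_abs_self (f 0)
    have h5 := abs_nonneg (f 0)
    have h6 := abs_nonneg m
    have h7 : 0 ≤ L * ‖x‖ := by positivity
    simp only [Pi.add_apply]
    rw [Real.norm_eq_abs, abs_le]
    constructor <;> linarith
  have hQi : Integrable (Q a f) μ := (hT f hf).1
  have hJ : ∑ j : idx μ s, wt μ s j * Q a f (mean μ s j) ≤ ∫ x, Q a f x ∂μ := by
    rw [part (s := s) hQi]
    exact Finset.sum_le_sum fun j _ => jensen (Q_BB ha hf) hi hQi j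
  have hLc : ∫ x, f x ∂ν ≤ ∑ i : idx ν t, wt ν t i * f (mean ν t i) + 2 * L * ∫ x, ‖x - t x‖ ∂ν := by
    have hti : Integrable (fun x => ‖x - t x‖) ν := (hνi.sub t.integrable_of_isFiniteMeasure).norm
    rw [part (s := t) hfi, part (s := t) hti, Finset.mul_sum, ← Finset.sum_add_distrib]
    exact Finset.sum_le_sum fun i _ => lip_cell hL0 hfL hνi hfi i
  have hG := gibbs hT hac hllr hf hfi
  have hmain : a ^ 2 * ∑ j : idx μ s, wt μ s j * ‖mean μ s j - bar (fun i : idx ν t => mean ν t i) P j‖ ^ 2 ≤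
      H + ε / 2 := by
    linarith
  -- the kernel
  haveI := kk_markov hP
  unfold wcost
  refine (iInf_le_of_le (kk μ ν s t P) (iInf_le_of_le ⟨inferInstance, kk_bind hP⟩ le_rfl)).trans ?_
  set b : E → E := fun c => ∫ y, y ∂(KK μ ν s t P c) with hb
  have hbi : Integrable (fun x => ‖x - b (s x)‖ ^ 2) μ := by
    have h1 : Integrable (fun x => ‖b (s x)‖ ^ 2) μ := by
      have h := SimpleFunc.integrable_of_isFiniteMeasure (μ := μ) (s.map (fun c => ‖b c‖ ^ 2))
      rw [SimpleFunc.coe_map] at h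
      exact h
    have h2 : AEStronglyMeasurable (fun x => b (s x)) μ := by
      have h := (s.map b).aestronglyMeasurable (μ := μ)
      rw [SimpleFunc.coe_map] at h
      exact h
    refine ((hi2.const_mul 2).add (h1.const_mul 2)).mono'
      ((measurable_id.aestronglyMeasurable.sub h2).norm.pow 2) (Eventually.of_forall fun x => ?_)
    simp only [Pi.add_apply]
    rw [Real.norm_of_nonneg (by positivity)]
    have h3 := norm_sub_le x (b (s x))
    have h4 := pow_le_pow_left₀ (norm_nonneg _) h3 2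
    nlinarith [sq_nonneg (‖x‖ - ‖b (s x)‖)]
  have hcost2 : ∫⁻ x, ENNReal.ofReal (a ^ 2 * ‖x - ∫ y, y ∂(kk μ ν s t P x)‖ ^ 2) ∂μ =
      ENNReal.ofReal (a ^ 2 * ∫ x, ‖x - b (s x)‖ ^ 2 ∂μ) := by
    rw [← integral_const_mul, ofReal_integral_eq_lintegral_ofReal (hbi.const_mul _)
      (Eventually.of_forall fun x => by positivity)]
    rfl
  rw [hcost2]
  have hbound : ∫ x, ‖x - b (s x)‖ ^ 2 ∂μ ≤ ∫ x, ‖x - s x‖ ^ 2 ∂μ +
      ∑ j : idx μ s, wt μ s j * ‖mean μ s j - bar (fun i : idx ν t => mean ν t i) P j‖ ^ 2 := by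
    rw [part (s := s) hbi, part (s := s) hsi, ← Finset.sum_add_distrib]
    refine Finset.sum_le_sum fun j _ => ?_
    have h1 : ∫ x in cell s j, ‖x - b (s x)‖ ^ 2 ∂μ =
        ∫ x in cell s j, ‖x - bar (fun i : idx ν t => mean ν t i) P j‖ ^ 2 ∂μ := by
      apply setIntegral_congr_fun (cell_meas s j)
      intro x hx
      have hx' : s x = j := hx
      have h2 : b j = bar (fun i : idx ν t => mean ν t i) P j := KK_bar hP hνi j
      simp only [hx', h2]
    have h2 : ∫ x in cell s j, ‖x - s x‖ ^ 2 ∂μ = ∫ x in cell s j, ‖x - (j : E)‖ ^ 2 ∂μ := by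
      apply setIntegral_congr_fun (cell_meas s j)
      intro x hx
      have hx' : s x = j := hx
      simp only [hx']
    rw [h1, h2, sq_cell hi hi2 j, sq_cell hi hi2 j]
    have h3 : 0 ≤ wt μ s j * ‖mean μ s j - (j : E)‖ ^ 2 := mul_nonneg (wt_pos j).le (sq_nonneg _)
    linarith
  have hfinal : a ^ 2 * ∫ x, ‖x - b (s x)‖ ^ 2 ∂μ ≤ H + ε := by
    have h1 := mul_le_mul_of_nonneg_left hbound (sq_nonneg a)
    have h2 : a ^ 2 * ∫ x, ‖x - s x‖ ^ 2 ∂μ ≤ ε / 2 := by
      have h3 := mul_le_mul_of_nonneg_left hs (sq_nonneg a)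
      have h4 : a ^ 2 * (ε / (2 * a ^ 2)) = ε / 2 := by
        field_simp
      linarith
    linarith
  refine (ENNReal.ofReal_le_ofReal hfinal).trans (le_of_eq ?_)
  rw [ENNReal.ofReal_add hH0 hε0.le, hH, ENNReal.ofReal_toReal hk, ENNReal.ofReal_coe_nnreal]

end Pool.Agent.X139.WT
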