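import Pool.Agent.X139.WT.Basic
import Pool.Agent.H249R2.PM.Farkas

/-!
# The finite dimensional weak transport problem and its dual
-/

set_option autoImplicit false

namespace Pool.Agent.X139.WT

open Set Filter Topology Finset
open scoped RealInnerProductSpace

variable {E : Type*} [NormedAddCommGroup E] [InnerProductSpace ℝ E]
variable {J I : Type*} [Fintype J] [Fintype I]

/-- the transport plans, as kernels -/
def Feas (μ : J → ℝ) (ν : I → ℝ) (P : J → I → ℝ) : Prop :=
  (∀ j i, 0 ≤ P j i) ∧ (∀ j, ∑ i, P j i = 1) ∧ ∀ i, ∑ j, μ j * P j i = ν i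

/-- the barycenters -/
noncomputable def bar (y : I → E) (P : J → I → ℝ) (j : J) : E := ∑ i, P j i • y i

lemma exists_opt {μ : J → ℝ} {ν : I → ℝ} (hμ1 : ∑ j, μ j = 1)
    (hν : ∀ i, 0 ≤ ν i) (hν1 : ∑ i, ν i = 1) (x : J → E) (y : I → E) :
    ∃ P, Feas μ ν P ∧ ∀ P', Feas μ ν P' →
      ∑ j, μ j * ‖x j - bar y P j‖ ^ 2 ≤ ∑ j, μ j * ‖x j - bar y P' j‖ ^ 2 := by
  set S : Set (J → I → ℝ) := {P | Feas μ ν P} with hS
  have hcl : IsClosed S := by
    have e : S = (⋂ j, ⋂ i, {P : J → I → ℝ | 0 ≤ P j i}) ∩ ((⋂ j, {P : J → I → ℝ | ∑ i, P j i = 1}) ∩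
        ⋂ i, {P : J → I → ℝ | ∑ j, μ j * P j i = ν i}) := by
      ext P
      simp [hS, Feas]
    rw [e]
    refine IsClosed.inter ?_ (IsClosed.inter ?_ ?_)
    · exact isClosed_iInter fun j => isClosed_iInter fun i =>
        isClosed_le continuous_const (by fun_prop)
    · exact isClosed_iInter fun j => isClosed_eq (by fun_prop) continuous_const
    · exact isClosed_iInter fun i => isClosed_eq (by fun_prop) continuous_const
  have hsub : S ⊆ Set.Icc (0 : J → I → ℝ) 1 := by
    intro P hP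
    refine ⟨fun j i => hP.1 j i, fun j i => ?_⟩
    have := Finset.single_le_sum (f := fun i => P j i) (fun i _ => hP.1 j i) (Finset.mem_univ i)
    rw [hP.2.1 j] at this
    exact this
  have hcomp : IsCompact S := isCompact_Icc.of_isClosed_subset hcl hsub
  have hne : S.Nonempty := ⟨fun _ i => ν i, fun _ i => hν i, fun _ => hν1, fun i => by
    rw [← Finset.sum_mul, hμ1, one_mul]⟩
  have hcont : Continuous (fun P : J → I → ℝ => ∑ j, μ j * ‖x j - bar y P j‖ ^ 2) := by
    unfold bar
    fun_prop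
  obtain ⟨P, hP, hmin⟩ := hcomp.exists_isMinOn hne hcont.continuousOn
  exact ⟨P, hP, fun P' hP' => hmin hP'⟩

lemma first_order {μ : J → ℝ} {ν : I → ℝ} (hμ : ∀ j, 0 ≤ μ j) {x : J → E} {y : I → E}
    {P : J → I → ℝ} (hP : Feas μ ν P) (hmin : ∀ P', Feas μ ν P' →
      ∑ j, μ j * ‖x j - bar y P j‖ ^ 2 ≤ ∑ j, μ j * ‖x j - bar y P' j‖ ^ 2)
    {P' : J → I → ℝ} (hP' : Feas μ ν P') :
    ∑ j, μ j * ⟪x j - bar y P j, bar y P' j - bar y P j⟫ ≤ 0 := by
  apply le_of_forall_pos_le_add
  intro ε hε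
  rw [zero_add]
  set D : ℝ := ∑ j, μ j * ‖bar y P' j - bar y P j‖ ^ 2 with hD
  have hD0 : 0 ≤ D := Finset.sum_nonneg fun j _ => mul_nonneg (hμ j) (sq_nonneg _)
  set t : ℝ := min 1 (ε / (D + 1)) with ht
  have ht0 : 0 < t := lt_min one_pos (by positivity)
  have ht1 : t ≤ 1 := min_le_left _ _
  have ht2 : t * D ≤ ε := by
    have h2 : t ≤ ε / (D + 1) := min_le_right _ _
    rw [le_div_iff₀ (by positivity)] at h2
    nlinarith
  have hf : Feas μ ν (fun j i => (1 - t) * P j i + t * P' j i) := by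
    refine ⟨fun j i => ?_, fun j => ?_, fun i => ?_⟩
    · exact add_nonneg (mul_nonneg (by linarith) (hP.1 j i)) (mul_nonneg ht0.le (hP'.1 j i))
    · rw [Finset.sum_add_distrib, ← Finset.mul_sum, ← Finset.mul_sum, hP.2.1, hP'.2.1]
      ring
    · have e : ∀ j, μ j * ((1 - t) * P j i + t * P' j i) = (1 - t) * (μ j * P j i) + t * (μ j * P' j i) :=
        fun j => by ring
      rw [Finset.sum_congr rfl fun j _ => e j, Finset.sum_add_distrib, ← Finset.mul_sum,
        ← Finset.mul_sum, hP.2.2, hP'.2.2]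
      ring
  have h1 := hmin _ hf
  have h2 : ∀ j, bar y (fun j i => (1 - t) * P j i + t * P' j i) j =
      bar y P j + t • (bar y P' j - bar y P j) := by
    intro j
    unfold bar
    simp only [add_smul, mul_smul, Finset.sum_add_distrib, Finset.sum_sub_distrib, ← Finset.smul_sum,
      sub_smul, one_smul, smul_sub]
    abel
  have h3 : ∀ j, ‖x j - bar y (fun j i => (1 - t) * P j i + t * P' j i) j‖ ^ 2 =
      ‖x j - bar y P j‖ ^ 2 - 2 * t * ⟪x j - bar y P j, bar y P' j - bar y P j⟫ +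
        t ^ 2 * ‖bar y P' j - bar y P j‖ ^ 2 := by
    intro j
    rw [h2, ← sub_sub, norm_sub_sq_real, inner_smul_right, norm_smul, Real.norm_of_nonneg ht0.le]
    ring
  have h4 : ∑ j, μ j * ‖x j - bar y (fun j i => (1 - t) * P j i + t * P' j i) j‖ ^ 2 =
      ∑ j, μ j * ‖x j - bar y P j‖ ^ 2 -
        2 * t * ∑ j, μ j * ⟪x j - bar y P j, bar y P' j - bar y P j⟫ + t ^ 2 * D := by
    rw [hD, Finset.mul_sum, Finset.mul_sum, ← Finset.sum_sub_distrib, ← Finset.sum_add_distrib]
    refine Finset.sum_congr rfl fun j _ => ?_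
    rw [h3]
    ring
  rw [h4] at h1
  have h5 : t * (2 * ∑ j, μ j * ⟪x j - bar y P j, bar y P' j - bar y P j⟫) ≤ t * ε := by nlinarith
  have h6 := le_of_mul_le_mul_left h5 ht0
  linarith

/-- an entry -/
def ent (j : J) (i : I) : (J → I → ℝ) →ₗ[ℝ] ℝ where
  toFun P := P j i
  map_add' _ _ := rfl
  map_smul' _ _ := rfl

lemma ent_apply (j : J) (i : I) (P : J → I → ℝ) : ent j i P = P j i := rfl

open scoped Classical in
theorem potentials {μ : J → ℝ} {ν : I → ℝ} (hμ : ∀ j, 0 < μ j) (hμ1 : ∑ j, μ j = 1)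
    (hν : ∀ i, 0 ≤ ν i) (hν1 : ∑ i, ν i = 1) (x : J → E) (y : I → E) :
    ∃ P, Feas μ ν P ∧ ∃ (h : J → ℝ) (f : I → ℝ),
      (∀ j i, ⟪x j - bar y P j, y i⟫ ≤ h j + f i) ∧
      ∑ j, μ j * h j + ∑ i, ν i * f i ≤ ∑ j, μ j * ⟪x j - bar y P j, bar y P j⟫ := by
  obtain ⟨P, hP, hmin⟩ := exists_opt hμ1 hν hν1 x y
  refine ⟨P, hP, ?_⟩
  set g : J → E := fun j => x j - bar y P j with hg
  set obj : (J → I → ℝ) →ₗ[ℝ] ℝ := ∑ j, ∑ i, (μ j * ⟪g j, y i⟫) • ent j i with hobj
  have hobja : ∀ P' : J → I → ℝ, obj P' = ∑ j, μ j * ⟪g j, bar y P' j⟫ := by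
    intro P'
    rw [hobj, LinearMap.sum_apply]
    refine Finset.sum_congr rfl fun j _ => ?_
    rw [LinearMap.sum_apply]
    unfold bar
    rw [inner_sum, Finset.mul_sum]
    refine Finset.sum_congr rfl fun i _ => ?_
    rw [LinearMap.smul_apply, ent_apply, inner_smul_right, smul_eq_mul]
    ring
  set row : J → ((J → I → ℝ) →ₗ[ℝ] ℝ) := fun j => ∑ i, ent j i with hrow
  have hrowa : ∀ j P', row j P' = ∑ i, P' j i := by
    intro j P'
    rw [hrow]
    simp only [LinearMap.sum_apply]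
    rfl
  set col : I → ((J → I → ℝ) →ₗ[ℝ] ℝ) := fun i => ∑ j, μ j • ent j i with hcol
  have hcola : ∀ i P', col i P' = ∑ j, μ j * P' j i := by
    intro i P'
    rw [hcol]
    simp only [LinearMap.sum_apply]
    rfl
  set τ : ℝ := ∑ j, μ j * ⟪g j, bar y P j⟫ with hτ
  obtain ⟨w0, w, hw0, hw, heq⟩ := Pool.Agent.H249R2.PM.farkas_fin
    (ι := (J × I) ⊕ (J ⊕ J) ⊕ (I ⊕ I))
    (fun o => match o with
      | Sum.inl ji => -(ent ji.1 ji.2)
      | Sum.inr (Sum.inl (Sum.inl j)) => row j
      | Sum.inr (Sum.inl (Sum.inr j)) => -(row j)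
      | Sum.inr (Sum.inr (Sum.inl i)) => col i
      | Sum.inr (Sum.inr (Sum.inr i)) => -(col i))
    (fun o => match o with
      | Sum.inl _ => 0
      | Sum.inr (Sum.inl (Sum.inl _)) => 1
      | Sum.inr (Sum.inl (Sum.inr _)) => -1
      | Sum.inr (Sum.inr (Sum.inl i)) => ν i
      | Sum.inr (Sum.inr (Sum.inr i)) => -(ν i))
    obj τ P (by
      rintro (⟨j, i⟩ | (j | j) | (i | i))
      · simp only [LinearMap.neg_apply, ent_apply]
        linarith [hP.1 j i]
      · simp only [hrowa]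
        exact (hP.2.1 j).le
      · simp only [LinearMap.neg_apply, hrowa]
        rw [hP.2.1 j]
      · simp only [hcola]
        exact (hP.2.2 i).le
      · simp only [LinearMap.neg_apply, hcola]
        rw [hP.2.2 i]) (by
      intro P' hP'
      have hF : Feas μ ν P' := by
        refine ⟨fun j i => ?_, fun j => ?_, fun i => ?_⟩
        · have := hP' (Sum.inl (j, i))
          simp only [LinearMap.neg_apply, ent_apply] at this
          linarith
        · have h1 := hP' (Sum.inr (Sum.inl (Sum.inl j)))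
          have h2 := hP' (Sum.inr (Sum.inl (Sum.inr j)))
          simp only [LinearMap.neg_apply, hrowa] at h1 h2
          linarith
        · have h1 := hP' (Sum.inr (Sum.inr (Sum.inl i)))
          have h2 := hP' (Sum.inr (Sum.inr (Sum.inr i)))
          simp only [LinearMap.neg_apply, hcola] at h1 h2
          linarith
      have h3 := first_order (fun j => (hμ j).le) hP hmin hF
      rw [hobja, hτ, ← sub_nonpos, ← Finset.sum_sub_distrib]
      refine le_trans (le_of_eq (Finset.sum_congr rfl fun j _ => ?_)) h3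
      rw [inner_sub_right]
      ring)
  set U : J → ℝ := fun j => w (Sum.inr (Sum.inl (Sum.inl j))) - w (Sum.inr (Sum.inl (Sum.inr j))) with hU
  set V : I → ℝ := fun i => w (Sum.inr (Sum.inr (Sum.inl i))) - w (Sum.inr (Sum.inr (Sum.inr i))) with hV
  have heq' : ∀ P' : J → I → ℝ, τ - obj P' = w0 + ∑ ji : J × I, w (Sum.inl ji) * P' ji.1 ji.2 +
      ∑ j, U j * (1 - ∑ i, P' j i) + ∑ i, V i * (ν i - ∑ j, μ j * P' j i) := by
    intro P'
    rw [heq P']
    simp only [Fintype.sum_sum_type, LinearMap.neg_apply, ent_apply, hrowa, hcola]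
    rw [← Finset.sum_add_distrib, ← Finset.sum_add_distrib]
    have e1 : ∀ ji : J × I, w (Sum.inl ji) * (0 - -P' ji.1 ji.2) = w (Sum.inl ji) * P' ji.1 ji.2 :=
      fun ji => by ring
    have e2 : ∀ j, w (Sum.inr (Sum.inl (Sum.inl j))) * (1 - ∑ i, P' j i) +
        w (Sum.inr (Sum.inl (Sum.inr j))) * (-1 - -∑ i, P' j i) = U j * (1 - ∑ i, P' j i) :=
      fun j => by simp only [hU]; ring
    have e3 : ∀ i, w (Sum.inr (Sum.inr (Sum.inl i))) * (ν i - ∑ j, μ j * P' j i) +
        w (Sum.inr (Sum.inr (Sum.inr i))) * (-(ν i) - -∑ j, μ j * P' j i) =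
          V i * (ν i - ∑ j, μ j * P' j i) :=
      fun i => by simp only [hV]; ring
    simp only [e1, e2, e3]
    ring
  have h0 := heq' (fun _ _ => 0)
  have hobj0 : obj (fun _ _ => 0) = 0 := obj.map_zero
  rw [hobj0] at h0
  simp only [mul_zero, Finset.sum_const_zero, sub_zero, mul_one, add_zero] at h0
  refine ⟨fun j => U j / μ j, V, fun j i => ?_, ?_⟩
  · have h1 := heq' (fun j' i' => if j' = j then (if i' = i then 1 else 0) else 0)
    have e1 : obj (fun j' i' => if j' = j then (if i' = i then 1 else 0) else 0) = μ j * ⟪g j, y i⟫ := by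
      rw [hobja, Finset.sum_eq_single j]
      · unfold bar
        simp
      · intro j' _ hj'
        unfold bar
        simp [hj']
      · simp
    have e2 : ∑ ji : J × I, w (Sum.inl ji) * (if ji.1 = j then (if ji.2 = i then (1:ℝ) else 0) else 0) =
        w (Sum.inl (j, i)) := by
      rw [Finset.sum_eq_single (j, i)]
      · simp
      · rintro ⟨j', i'⟩ _ h
        by_cases hj : j' = j
        · by_cases hi : i' = i
          · exact absurd (by rw [hj, hi]) h
          · simp [hi]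
        · simp [hj]
      · simp
    have e3 : ∑ j', U j' * (1 - ∑ i', (if j' = j then (if i' = i then (1:ℝ) else 0) else 0)) =
        ∑ j', U j' - U j := by
      have : ∀ j', U j' * (1 - ∑ i', (if j' = j then (if i' = i then (1:ℝ) else 0) else 0)) =
          U j' - (if j' = j then U j' else 0) := by
        intro j'
        by_cases hj : j' = j
        · simp [hj]
        · simp [hj]
      rw [Finset.sum_congr rfl fun j' _ => this j', Finset.sum_sub_distrib]
      simp
    have e4 : ∑ i', V i' * (ν i' - ∑ j', μ j' * (if j' = j then (if i' = i then (1:ℝ) else 0) else 0)) =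
        ∑ i', V i' * ν i' - V i * μ j := by
      have : ∀ i', V i' * (ν i' - ∑ j', μ j' * (if j' = j then (if i' = i then (1:ℝ) else 0) else 0)) =
          V i' * ν i' - (if i' = i then V i' * μ j else 0) := by
        intro i'
        by_cases hi : i' = i
        · simp [hi]
          ring
        · simp [hi]
      rw [Finset.sum_congr rfl fun i' _ => this i', Finset.sum_sub_distrib]
      simp
    rw [e1, e2, e3, e4, h0] at h1
    have h2 := hw (Sum.inl (j, i))
    have h3 : μ j * ⟪g j, y i⟫ ≤ U j + V i * μ j := by linarith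
    have h4 : μ j * ⟪g j, y i⟫ ≤ μ j * (U j / μ j + V i) := by
      rw [mul_add, mul_div_cancel₀ _ (hμ j).ne']
      linarith
    exact le_of_mul_le_mul_left h4 (hμ j)
  · have e : ∀ j, μ j * (U j / μ j) = U j := fun j => mul_div_cancel₀ _ (hμ j).ne'
    simp only [e]
    have e' : ∑ i, ν i * V i = ∑ i, V i * ν i := Finset.sum_congr rfl fun i _ => mul_comm _ _
    rw [e']
    linarith

end Pool.Agent.X139.WT
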