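import Pool.Agent.X139.WT.FD

/-!
# The test function of the finite dimensional weak transport problem
-/

set_option autoImplicit false

namespace Pool.Agent.X139.WT

open Set Filter Topology Finset
open scoped RealInnerProductSpace

variable {E : Type*} [NormedAddCommGroup E] [InnerProductSpace ℝ E]

section aff

variable {O : Type*} [Finite O] [Nonempty O]

/-- a finite maximum of affine functions -/
noncomputable def aff (G : O → E) (c : O → ℝ) (y : E) : ℝ := ⨆ o, (⟪G o, y⟫ + c o)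

lemma le_aff (G : O → E) (c : O → ℝ) (y : E) (o : O) : ⟪G o, y⟫ + c o ≤ aff G c y :=
  le_ciSup (f := fun o => ⟪G o, y⟫ + c o) (Set.finite_range _).bddAbove o

lemma aff_le {G : O → E} {c : O → ℝ} {y : E} {b : ℝ} (h : ∀ o, ⟪G o, y⟫ + c o ≤ b) :
    aff G c y ≤ b := ciSup_le h

lemma aff_convex (G : O → E) (c : O → ℝ) : ConvexOn ℝ univ (aff G c) := by
  refine ⟨convex_univ, ?_⟩
  intro x _ y _ s t hs ht hst
  apply aff_le
  intro o
  rw [inner_add_right, inner_smul_right, inner_smul_right, smul_eq_mul, smul_eq_mul]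
  have h1 := mul_le_mul_of_nonneg_left (le_aff G c x o) hs
  have h2 := mul_le_mul_of_nonneg_left (le_aff G c y o) ht
  have h3 : c o = s * c o + t * c o := by rw [← add_mul, hst, one_mul]
  linarith

lemma aff_lip {G : O → E} {c : O → ℝ} {L : ℝ} (hL : ∀ o, ‖G o‖ ≤ L) (x y : E) :
    aff G c x ≤ aff G c y + L * ‖x - y‖ := by
  apply aff_le
  intro o
  have h1 := le_aff G c y o
  have h2 : ⟪G o, x⟫ = ⟪G o, y⟫ + ⟪G o, x - y⟫ := by
    rw [← inner_add_right, add_sub_cancel]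
  have h3 := real_inner_le_norm (G o) (x - y)
  have h4 := mul_le_mul_of_nonneg_right (hL o) (norm_nonneg (x - y))
  linarith

end aff

variable {J I : Type*} [Fintype J] [Fintype I]

theorem dual_fun {a : ℝ} (ha : 0 < a) {μ : J → ℝ} {ν : I → ℝ} (hμ : ∀ j, 0 < μ j)
    (hμ1 : ∑ j, μ j = 1) (hν : ∀ i, 0 ≤ ν i) (hν1 : ∑ i, ν i = 1) (x : J → E) (y : I → E) {B : ℝ}
    (hB0 : 0 ≤ B) (hB : ∀ j, ‖x j‖ + (∑ i, ν i * ‖y i‖) / μ j ≤ B) :
    ∃ P, Feas μ ν P ∧ ∃ f : E → ℝ, BB f ∧ (∀ u v, f u ≤ f v + 2 * a ^ 2 * B * ‖u - v‖) ∧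
      a ^ 2 * ∑ j, μ j * ‖x j - bar y P j‖ ^ 2 ≤ ∑ j, μ j * Q a f (x j) - ∑ i, ν i * f (y i) := by
  obtain ⟨P, hP, h, f₀, hpot, hsum⟩ := potentials hμ hμ1 hν hν1 x y
  refine ⟨P, hP, ?_⟩
  set g : J → E := fun j => x j - bar y P j with hg
  set M : ℝ := 2 * a ^ 2 * ∑ i, |f₀ i| with hM
  set G : Option J → E := fun o => match o with
    | none => 0
    | some j => (2 * a ^ 2) • g j with hG
  set c : Option J → ℝ := fun o => match o with
    | none => -M
    | some j => -(2 * a ^ 2 * h j) with hc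
  have hbar : ∀ j, ‖bar y P j‖ ≤ (∑ i, ν i * ‖y i‖) / μ j := by
    intro j
    rw [le_div_iff₀ (hμ j)]
    have h1 : ‖bar y P j‖ ≤ ∑ i, P j i * ‖y i‖ := by
      refine (norm_sum_le _ _).trans (le_of_eq (Finset.sum_congr rfl fun i _ => ?_))
      rw [norm_smul, Real.norm_of_nonneg (hP.1 j i)]
    have h2 : μ j * ∑ i, P j i * ‖y i‖ ≤ ∑ j', μ j' * ∑ i, P j' i * ‖y i‖ :=
      Finset.single_le_sum (f := fun j' => μ j' * ∑ i, P j' i * ‖y i‖)
        (fun j' _ => mul_nonneg (hμ j').le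
          (Finset.sum_nonneg fun i _ => mul_nonneg (hP.1 j' i) (norm_nonneg _))) (Finset.mem_univ j)
    have h3 : ∑ j', μ j' * ∑ i, P j' i * ‖y i‖ = ∑ i, ν i * ‖y i‖ := by
      simp only [Finset.mul_sum]
      rw [Finset.sum_comm]
      refine Finset.sum_congr rfl fun i _ => ?_
      rw [← hP.2.2 i, Finset.sum_mul]
      refine Finset.sum_congr rfl fun j' _ => ?_
      ring
    have h4 := mul_le_mul_of_nonneg_left h1 (hμ j).le
    linarith
  refine ⟨aff G c, ⟨aff_convex G c, -M, fun z => ?_⟩, aff_lip (fun o => ?_), ?_⟩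
  · have := le_aff G c z none
    simpa [hG, hc] using this
  · cases o with
    | none =>
      simp only [hG, norm_zero]
      positivity
    | some j =>
      simp only [hG]
      rw [norm_smul, Real.norm_of_nonneg (by positivity)]
      apply mul_le_mul_of_nonneg_left _ (by positivity)
      refine le_trans ?_ (hB j)
      refine (norm_sub_le _ _).trans ?_
      linarith [hbar j]
  · have h1 : ∀ i, aff G c (y i) ≤ 2 * a ^ 2 * f₀ i := by
      intro i
      apply aff_le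
      rintro (_ | j)
      · simp only [hG, hc, inner_zero_left, zero_add]
        have h2 : |f₀ i| ≤ ∑ i, |f₀ i| := Finset.single_le_sum (f := fun i => |f₀ i|)
          (fun i _ => abs_nonneg _) (Finset.mem_univ i)
        have h3 := neg_abs_le (f₀ i)
        rw [hM, ← mul_neg]
        apply mul_le_mul_of_nonneg_left _ (by positivity)
        linarith
      · simp only [hG, hc]
        rw [inner_smul_left]
        simp only [conj_trivial]
        have := mul_le_mul_of_nonneg_left (hpot j i) (by positivity : 0 ≤ 2 * a ^ 2)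
        linarith
    have h2 : ∀ j, 2 * a ^ 2 * (⟪g j, x j⟫ - h j) - a ^ 2 * ‖g j‖ ^ 2 ≤ Q a (aff G c) (x j) := by
      intro j
      apply le_Q
      intro z
      have h3 := le_aff G c z (some j)
      simp only [hG, hc] at h3
      rw [inner_smul_left] at h3
      simp only [conj_trivial] at h3
      have h4 : ‖x j - z - g j‖ ^ 2 = ‖x j - z‖ ^ 2 - 2 * ⟪x j - z, g j⟫ + ‖g j‖ ^ 2 :=
        norm_sub_sq_real _ _
      rw [inner_sub_left, real_inner_comm (g j) (x j), real_inner_comm (g j) z] at h4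
      have h5 : 0 ≤ a ^ 2 * ‖x j - z - g j‖ ^ 2 := by positivity
      rw [h4] at h5
      linarith
    have h3 : ∑ i, ν i * aff G c (y i) ≤ 2 * a ^ 2 * ∑ i, ν i * f₀ i := by
      rw [Finset.mul_sum]
      refine Finset.sum_le_sum fun i _ => ?_
      have := mul_le_mul_of_nonneg_left (h1 i) (hν i)
      linarith
    have h4 : ∑ j, μ j * (2 * a ^ 2 * (⟪g j, x j⟫ - h j) - a ^ 2 * ‖g j‖ ^ 2) ≤
        ∑ j, μ j * Q a (aff G c) (x j) :=
      Finset.sum_le_sum fun j _ => mul_le_mul_of_nonneg_left (h2 j) (hμ j).le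
    have h5 : ∑ j, μ j * (2 * a ^ 2 * (⟪g j, x j⟫ - h j) - a ^ 2 * ‖g j‖ ^ 2) =
        2 * a ^ 2 * (∑ j, μ j * ⟪g j, x j⟫ - ∑ j, μ j * h j) - a ^ 2 * ∑ j, μ j * ‖g j‖ ^ 2 := by
      rw [← Finset.sum_sub_distrib, Finset.mul_sum, Finset.mul_sum, ← Finset.sum_sub_distrib]
      refine Finset.sum_congr rfl fun j _ => ?_
      ring
    have h6 : ∑ j, μ j * ⟪g j, x j⟫ - ∑ j, μ j * ⟪g j, bar y P j⟫ = ∑ j, μ j * ‖g j‖ ^ 2 := by
      rw [← Finset.sum_sub_distrib]
      refine Finset.sum_congr rfl fun j _ => ?_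
      rw [← mul_sub, ← inner_sub_right, ← real_inner_self_eq_norm_sq]
    have h7 := mul_le_mul_of_nonneg_left hsum (by positivity : 0 ≤ 2 * a ^ 2)
    have h8 : a ^ 2 * ∑ j, μ j * ‖g j‖ ^ 2 ≤
        2 * a ^ 2 * (∑ j, μ j * ⟪g j, x j⟫ - ∑ j, μ j * h j) - a ^ 2 * ∑ j, μ j * ‖g j‖ ^ 2 -
          2 * a ^ 2 * ∑ i, ν i * f₀ i := by
      rw [← h6]
      linarith
    have h9 : a ^ 2 * ∑ j, μ j * ‖x j - bar y P j‖ ^ 2 = a ^ 2 * ∑ j, μ j * ‖g j‖ ^ 2 := rfl
    linarith

end Pool.Agent.X139.WT
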