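import Pool.Agent.X139.WT.Basic

/-!
# The weak transport cost, and the inequality `T^-`: from couplings to test functions
-/

set_option autoImplicit false

namespace Pool.Agent.X139.WT

open MeasureTheory Set Filter Topology ProbabilityTheory
open scoped RealInnerProductSpace ENNReal

variable {E : Type*} [NormedAddCommGroup E] [InnerProductSpace ℝ E]
  [MeasurableSpace E] [BorelSpace E]

/-- the weak transport cost `T(μ₂ | μ₁)` for the cost `a^2 t^2`: the infimum, over the probability
kernels `p` which transport `μ₁` to `μ₂`, of the integral of `a^2 |x - ∫ y p(x, dy)|^2` -/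
noncomputable def wcost (a : ℝ) (μ₁ μ₂ : Measure E) : ℝ≥0∞ :=
  ⨅ (p : Kernel E E) (_ : IsMarkovKernel p ∧ μ₁.bind p = μ₂),
    ∫⁻ x, ENNReal.ofReal (a ^ 2 * ‖x - ∫ y, y ∂(p x)‖ ^ 2) ∂μ₁

/-- the inequality `T^-` with the cost `a^2 t^2` -/
def TMinus (a : ℝ) (μ : Measure E) : Prop :=
  ∀ ν : Measure E, IsProbabilityMeasure ν → Integrable (fun x => ‖x‖) ν →
    wcost a ν μ ≤ InformationTheory.klDiv ν μ

/-- the inequality `T^+` with the cost `a^2 t^2` -/
def TPlus (a : ℝ) (μ : Measure E) : Prop :=
  ∀ ν : Measure E, IsProbabilityMeasure ν → Integrable (fun x => ‖x‖) ν →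
    wcost a μ ν ≤ InformationTheory.klDiv ν μ

lemma wcost_mono {a b : ℝ} (h : a ^ 2 ≤ b ^ 2) (μ₁ μ₂ : Measure E) :
    wcost a μ₁ μ₂ ≤ wcost b μ₁ μ₂ := by
  unfold wcost
  refine iInf_mono fun p => iInf_mono fun _ => lintegral_mono fun x => ?_
  apply ENNReal.ofReal_le_ofReal
  exact mul_le_mul_of_nonneg_right h (sq_nonneg _)

lemma TMinus_mono {a b : ℝ} {μ : Measure E} (hb : 0 < b) (hba : b ≤ a) (h : TMinus a μ) :
    TMinus b μ := fun ν hν hi =>
  (wcost_mono (pow_le_pow_left₀ hb.le hba 2) _ _).trans (h ν hν hi)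

variable [FiniteDimensional ℝ E]

lemma kernel_jensen {f : E → ℝ} {m a : ℝ} (ha : 0 < a) (hf : BB f) (hm : ∀ x, m ≤ f x) (x : E)
    (κ : Measure E) [IsProbabilityMeasure κ] (h1 : ∫⁻ y, ENNReal.ofReal ‖y‖ ∂κ ≠ ∞) :
    ENNReal.ofReal (Q a f x - m) ≤ (∫⁻ y, ENNReal.ofReal (f y - m) ∂κ) +
      ENNReal.ofReal (a ^ 2 * ‖x - ∫ y, y ∂κ‖ ^ 2) := by
  by_cases h2 : ∫⁻ y, ENNReal.ofReal (f y - m) ∂κ = ∞
  · rw [h2]
    simp
  have hi1 : Integrable (fun y : E => y) κ := by
    refine ⟨measurable_id.aestronglyMeasurable, ?_⟩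
    rw [hasFiniteIntegral_iff_norm]
    exact lt_top_iff_ne_top.2 h1
  have hi2 : Integrable (fun y => f y - m) κ := by
    refine ⟨(hf.cont.sub continuous_const).aestronglyMeasurable, ?_⟩
    rw [hasFiniteIntegral_iff_ofReal (Eventually.of_forall fun y => by
      have := hm y
      simp only [Pi.zero_apply]
      linarith)]
    exact lt_top_iff_ne_top.2 h2
  have hi3 : Integrable f κ := by
    have := hi2.add (integrable_const m)
    refine this.congr (Eventually.of_forall fun y => ?_)
    simp
  have hj := hf.1.map_integral_le hf.cont.continuousOn isClosed_univ (μ := κ) (f := fun y => y)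
    (Eventually.of_forall fun y => mem_univ _) hi1 hi3
  rw [← ofReal_integral_eq_lintegral_ofReal hi2 (Eventually.of_forall fun y => by
      have := hm y
      simp only [Pi.zero_apply]
      linarith), ← ENNReal.ofReal_add _ (by positivity)]
  · apply ENNReal.ofReal_le_ofReal
    rw [integral_sub hi3 (integrable_const m), integral_const, probReal_univ, one_smul]
    have := Q_le (a := a) hm x (∫ y, y ∂κ)
    linarith
  · exact integral_nonneg fun y => by
      have := hm y
      simp only [Pi.zero_apply]
      linarith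

theorem Tm_of_TMinus {a : ℝ} (ha : 0 < a) {μ : Measure E} [IsProbabilityMeasure μ]
    (hT : TMinus a μ) (hi : Integrable (fun x : E => ‖x‖) μ) : Tm a μ := by
  intro f hf hfi
  obtain ⟨m, hm⟩ := hf.2
  have hQc : Continuous (Q a f) := (Q_BB ha hf).cont
  -- the truncated inequality
  have key : ∀ k : ℕ, ∫⁻ x, ENNReal.ofReal (Real.exp (min (Q a f x) (m + k))) ∂μ ≤
      ENNReal.ofReal (Real.exp (∫ x, f x ∂μ)) := by
    intro k
    set g : E → ℝ := fun x => min (Q a f x) (m + k) with hg
    have hgc : Continuous g := hQc.min continuous_const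
    have hgm : ∀ x, m ≤ g x := fun x => le_min (m_le_Q hm x) (by
      have : (0:ℝ) ≤ k := Nat.cast_nonneg k
      linarith)
    have hgM : ∀ x, g x ≤ m + k := fun x => min_le_right _ _
    have hgQ : ∀ x, g x ≤ Q a f x := fun x => min_le_left _ _
    have hei : Integrable (fun x => Real.exp (g x)) μ := by
      refine (integrable_const (Real.exp (m + k))).mono'
        (Real.continuous_exp.comp hgc).aestronglyMeasurable (Eventually.of_forall fun x => ?_)
      rw [Real.norm_of_nonneg (Real.exp_pos _).le]
      exact Real.exp_le_exp.2 (hgM x)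
    set Z : ℝ := ∫ x, Real.exp (g x) ∂μ with hZ
    have hZ0 : 0 < Z := integral_exp_pos hei
    set ν : Measure E := μ.tilted g with hν
    haveI hνp : IsProbabilityMeasure ν := isProbabilityMeasure_tilted hei
    have hac : ν ≪ μ := tilted_absolutelyContinuous μ g
    have hνi : Integrable (fun x : E => ‖x‖) ν := by
      rw [hν, integrable_tilted_iff hei]
      refine (hi.const_mul (Real.exp (m + k))).mono' (by fun_prop) (Eventually.of_forall fun x => ?_)
      rw [smul_eq_mul, norm_mul, norm_norm, Real.norm_of_nonneg (Real.exp_pos _).le]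
      exact mul_le_mul_of_nonneg_right (Real.exp_le_exp.2 (hgM x)) (norm_nonneg _)
    have hgi : Integrable g ν := by
      refine (integrable_const (|m| + |m + k|)).mono' hgc.aestronglyMeasurable
        (Eventually.of_forall fun x => ?_)
      rw [Real.norm_eq_abs, abs_le]
      have h1 := neg_abs_le m
      have h2 := le_abs_self (m + k)
      have h3 := abs_nonneg m
      have h4 := abs_nonneg (m + k)
      have h5 := hgm x
      have h6 := hgM x
      constructor <;> linarith
    have hllr : llr ν μ =ᵐ[ν] fun x => g x - Real.log Z := by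
      apply hac.ae_le
      exact log_rnDeriv_tilted_left_self hei
    have hllri : Integrable (llr ν μ) ν := by
      rw [integrable_congr hllr]
      exact hgi.sub (integrable_const _)
    have hH : (InformationTheory.klDiv ν μ).toReal = ∫ x, g x ∂ν - Real.log Z := by
      rw [InformationTheory.toReal_klDiv_of_measure_eq hac (by simp), integral_congr_ae hllr,
        integral_sub hgi (integrable_const _), integral_const, probReal_univ, one_smul]
    have hHt : InformationTheory.klDiv ν μ ≠ ∞ := InformationTheory.klDiv_ne_top hac hllri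
    have hmain : ∀ δ : ℝ, 0 < δ → Real.log Z ≤ ∫ x, f x ∂μ + δ := by
      intro δ hδ
      have h1 : wcost a ν μ < InformationTheory.klDiv ν μ + ENNReal.ofReal δ :=
        lt_of_le_of_lt (hT ν hνp hνi) (ENNReal.lt_add_right hHt (by simpa using hδ))
      unfold wcost at h1
      rw [iInf_lt_iff] at h1
      obtain ⟨p, hp⟩ := h1
      rw [iInf_lt_iff] at hp
      obtain ⟨⟨hpM, hpν⟩, hp⟩ := hp
      have hpm : AEMeasurable (fun x => p x) ν := p.measurable.aemeasurable
      have hfm : Measurable (fun y => ENNReal.ofReal (f y - m)) :=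
        (hf.cont.measurable.sub measurable_const).ennreal_ofReal
      have hnm : Measurable (fun y : E => ENNReal.ofReal ‖y‖) := measurable_norm.ennreal_ofReal
      have h2 : ∫⁻ x, (∫⁻ y, ENNReal.ofReal ‖y‖ ∂(p x)) ∂ν ≠ ∞ := by
        rw [← Measure.lintegral_bind hpm hnm.aemeasurable, hpν]
        have := hi.2
        rw [hasFiniteIntegral_iff_norm] at this
        simpa using this.ne
      have h3 : ∀ᵐ x ∂ν, ∫⁻ y, ENNReal.ofReal ‖y‖ ∂(p x) ≠ ∞ := by
        have := ae_lt_top (Measurable.lintegral_kernel hnm) h2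
        filter_upwards [this] with x hx using hx.ne
      have h4 : ∫⁻ x, ENNReal.ofReal (g x - m) ∂ν ≤
          ∫⁻ x, ((∫⁻ y, ENNReal.ofReal (f y - m) ∂(p x)) +
            ENNReal.ofReal (a ^ 2 * ‖x - ∫ y, y ∂(p x)‖ ^ 2)) ∂ν := by
        apply lintegral_mono_ae
        filter_upwards [h3] with x hx
        exact (ENNReal.ofReal_le_ofReal (by linarith [hgQ x])).trans
          (kernel_jensen ha hf hm x (p x) hx)
      rw [lintegral_add_left (Measurable.lintegral_kernel hfm),
        ← Measure.lintegral_bind hpm hfm.aemeasurable, hpν] at h4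
      have h5 : ∫⁻ y, ENNReal.ofReal (f y - m) ∂μ = ENNReal.ofReal (∫ y, (f y - m) ∂μ) :=
        (ofReal_integral_eq_lintegral_ofReal (hfi.sub (integrable_const m))
          (Eventually.of_forall fun y => sub_nonneg.2 (hm y))).symm
      have h6 : ∫⁻ x, ENNReal.ofReal (g x - m) ∂ν = ENNReal.ofReal (∫ x, (g x - m) ∂ν) :=
        (ofReal_integral_eq_lintegral_ofReal (hgi.sub (integrable_const m))
          (Eventually.of_forall fun y => sub_nonneg.2 (hgm y))).symm
      have hH0 : 0 ≤ (InformationTheory.klDiv ν μ).toReal := ENNReal.toReal_nonneg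
      have h7 : InformationTheory.klDiv ν μ + ENNReal.ofReal δ =
          ENNReal.ofReal ((∫ x, g x ∂ν - Real.log Z) + δ) := by
        rw [ENNReal.ofReal_add (by rw [← hH]; exact hH0) hδ.le, ← hH, ENNReal.ofReal_toReal hHt]
      rw [h5, h6] at h4
      rw [h7] at hp
      have hf0 : 0 ≤ ∫ y, (f y - m) ∂μ := integral_nonneg fun y => by
        have := hm y
        simp only [Pi.zero_apply]
        linarith
      have h8 := h4.trans (add_le_add_right hp.le _)
      rw [← ENNReal.ofReal_add hf0 (by rw [← hH]; linarith),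
        ENNReal.ofReal_le_ofReal_iff (by
          have : 0 ≤ (∫ x, g x ∂ν - Real.log Z) + δ := by rw [← hH]; linarith
          linarith)] at h8
      rw [integral_sub hgi (integrable_const m), integral_sub hfi (integrable_const m), integral_const,
        integral_const, probReal_univ, probReal_univ, one_smul] at h8
      linarith
    have h9 : Real.log Z ≤ ∫ x, f x ∂μ := le_of_forall_pos_le_add fun δ hδ => hmain δ hδ
    rw [← ofReal_integral_eq_lintegral_ofReal hei (Eventually.of_forall fun x => (Real.exp_pos _).le)]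
    apply ENNReal.ofReal_le_ofReal
    rwa [← Real.log_le_iff_le_exp hZ0]
  -- the limit
  have hlim : ∫⁻ x, ENNReal.ofReal (Real.exp (Q a f x)) ∂μ ≤ ENNReal.ofReal (Real.exp (∫ x, f x ∂μ)) := by
    have h1 : ∀ x, ENNReal.ofReal (Real.exp (Q a f x)) =
        ⨆ k : ℕ, ENNReal.ofReal (Real.exp (min (Q a f x) (m + k))) := by
      intro x
      apply le_antisymm
      · obtain ⟨k, hk⟩ := exists_nat_ge (Q a f x - m)
        refine le_iSup_of_le k ?_
        rw [min_eq_left (by linarith)]
      · exact iSup_le fun k => ENNReal.ofReal_le_ofReal (Real.exp_le_exp.2 (min_le_left _ _))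
    simp_rw [h1]
    rw [lintegral_iSup]
    · exact iSup_le key
    · intro k
      exact (Real.continuous_exp.comp (hQc.min continuous_const)).measurable.ennreal_ofReal
    · intro k l hkl x
      apply ENNReal.ofReal_le_ofReal
      apply Real.exp_le_exp.2
      apply min_le_min_left
      have : (k : ℝ) ≤ l := by exact_mod_cast hkl
      linarith
  have hint : Integrable (fun x => Real.exp (Q a f x)) μ := by
    refine ⟨(Real.continuous_exp.comp hQc).aestronglyMeasurable, ?_⟩
    rw [hasFiniteIntegral_iff_ofReal (Eventually.of_forall fun x => (Real.exp_pos _).le)]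
    exact lt_of_le_of_lt hlim ENNReal.ofReal_lt_top
  refine ⟨hint, ?_⟩
  rw [← ofReal_integral_eq_lintegral_ofReal hint (Eventually.of_forall fun x => (Real.exp_pos _).le),
    ENNReal.ofReal_le_ofReal_iff (Real.exp_pos _).le] at hlim
  exact hlim

end Pool.Agent.X139.WT
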