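import Pool.Agent.X139.WT.Part
import Pool.Agent.X139.WT.FD2
import Pool.Agent.X139.WT.Primal

/-!
# The kernel built from a finite transport plan, and approximations by simple functions
-/

set_option autoImplicit false

namespace Pool.Agent.X139.WT

open MeasureTheory Set Filter Topology Finset ProbabilityTheory
open scoped RealInnerProductSpace ENNReal

variable {E : Type*} [NormedAddCommGroup E] [InnerProductSpace ℝ E] [FiniteDimensional ℝ E]
  [MeasurableSpace E] [BorelSpace E]

lemma approx_sq {μ : Measure E} [IsProbabilityMeasure μ]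
    (hi2 : Integrable (fun x : E => ‖x‖ ^ 2) μ) {δ : ℝ} (hδ : 0 < δ) :
    ∃ s : SimpleFunc E E, Integrable (fun x => ‖x - s x‖ ^ 2) μ ∧ ∫ x, ‖x - s x‖ ^ 2 ∂μ ≤ δ := by
  have hmem : MemLp (fun x : E => x) 2 μ :=
    (memLp_two_iff_integrable_sq_norm measurable_id.aestronglyMeasurable).2 hi2
  obtain ⟨s, hs, hsm⟩ := hmem.exists_simpleFunc_eLpNorm_sub_lt (by simp)
    (ε := ENNReal.ofReal (Real.sqrt δ)) (by simpa using hδ)
  have hd := hmem.sub hsm
  have hint : Integrable (fun x => ‖x - s x‖ ^ 2) μ :=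
    (memLp_two_iff_integrable_sq_norm hd.1).1 hd
  refine ⟨s, hint, ?_⟩
  rw [hd.eLpNorm_eq_integral_rpow_norm two_ne_zero ENNReal.ofNat_ne_top,
    ENNReal.ofReal_lt_ofReal_iff (Real.sqrt_pos.2 hδ)] at hs
  simp only [ENNReal.toReal_ofNat, Real.rpow_ofNat, Pi.sub_apply] at hs
  have h0 : 0 ≤ ∫ x, ‖x - s x‖ ^ 2 ∂μ := integral_nonneg fun x => by positivity
  have h1 : Real.sqrt (∫ x, ‖x - s x‖ ^ 2 ∂μ) < Real.sqrt δ := by
    rw [Real.sqrt_eq_rpow]
    have e : (1 / 2 : ℝ) = 2⁻¹ := by norm_num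
    rw [e]
    exact hs
  exact ((Real.sqrt_lt_sqrt_iff h0).1 h1).le

lemma approx_one {μ : Measure E} [IsProbabilityMeasure μ]
    (hi : Integrable (fun x : E => x) μ) {δ : ℝ} (hδ : 0 < δ) :
    ∃ s : SimpleFunc E E, ∫ x, ‖x - s x‖ ∂μ ≤ δ := by
  have hmem : MemLp (fun x : E => x) 1 μ := memLp_one_iff_integrable.2 hi
  obtain ⟨s, hs, hsm⟩ := hmem.exists_simpleFunc_eLpNorm_sub_lt (by simp)
    (ε := ENNReal.ofReal δ) (by simpa using hδ)
  have hd := hmem.sub hsm
  refine ⟨s, ?_⟩
  rw [hd.eLpNorm_eq_integral_rpow_norm one_ne_zero ENNReal.one_ne_top,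
    ENNReal.ofReal_lt_ofReal_iff hδ] at hs
  simp only [ENNReal.toReal_one, Real.rpow_one, inv_one, Pi.sub_apply] at hs
  exact hs.le

lemma lpart {μ : Measure E} [IsProbabilityMeasure μ] {s : SimpleFunc E E} (φ : E → ℝ≥0∞) :
    ∫⁻ x, φ x ∂μ = ∑ j : idx μ s, ∫⁻ x in cell s j, φ x ∂μ := by
  have h1 : ∫⁻ x, φ x ∂μ = ∑ c ∈ s.range, ∫⁻ x in cell s c, φ x ∂μ := by
    rw [← lintegral_biUnion_finset ?_ (fun c _ => cell_meas s c)]
    · have e : ⋃ c ∈ s.range, cell s c = univ := by
        ext x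
        simp only [mem_iUnion, mem_univ, iff_true]
        exact ⟨s x, s.mem_range_self x, rfl⟩
      rw [e, setLIntegral_univ]
    · intro c _ c' _ hcc
      refine Set.disjoint_left.2 fun x hx hx' => hcc ?_
      have e1 : s x = c := hx
      have e2 : s x = c' := hx'
      rw [← e1, ← e2]
  rw [h1, Finset.sum_coe_sort (idx μ s) (fun c => ∫⁻ x in cell s c, φ x ∂μ)]
  unfold idx
  rw [Finset.sum_filter]
  refine Finset.sum_congr rfl fun c _ => ?_
  split_ifs with hc
  · rfl
  · apply setLIntegral_measure_zero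
    have h2 : μ.real (cell s c) = 0 := le_antisymm (not_lt.1 hc) measureReal_nonneg
    rwa [measureReal_eq_zero_iff] at h2

open scoped Classical in
/-- the image measure of the points with `s x = c` -/
noncomputable def KK (μ ν : Measure E) (s t : SimpleFunc E E) (P : idx μ s → idx ν t → ℝ) (c : E) :
    Measure E :=
  if h : c ∈ idx μ s then
    ∑ i : idx ν t, ENNReal.ofReal (P ⟨c, h⟩ i / wt ν t i) • ν.restrict (cell t i)
  else ν

/-- the kernel -/
noncomputable def kk (μ ν : Measure E) (s t : SimpleFunc E E) (P : idx μ s → idx ν t → ℝ) :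
    Kernel E E where
  toFun x := KK μ ν s t P (s x)
  measurable' := (s.map (KK μ ν s t P)).measurable

variable {μ ν : Measure E} [IsProbabilityMeasure μ] [IsProbabilityMeasure ν] {s t : SimpleFunc E E}
  {P : idx μ s → idx ν t → ℝ}

lemma KK_of_mem (j : idx μ s) : KK μ ν s t P j =
    ∑ i : idx ν t, ENNReal.ofReal (P j i / wt ν t i) • ν.restrict (cell t i) := by
  unfold KK
  rw [dif_pos j.2]

lemma meas_cell (i : idx ν t) : ν (cell t i) = ENNReal.ofReal (wt ν t i) := by
  unfold wt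
  rw [ofReal_measureReal]

lemma KK_prob (hP : Feas (fun j : idx μ s => wt μ s j) (fun i : idx ν t => wt ν t i) P) (c : E) :
    IsProbabilityMeasure (KK μ ν s t P c) := by
  by_cases h : c ∈ idx μ s
  · refine ⟨?_⟩
    have e := KK_of_mem (ν := ν) (t := t) (P := P) ⟨c, h⟩
    simp only at e
    rw [e, Measure.finset_sum_apply]
    have h1 : ∀ i : idx ν t, (ENNReal.ofReal (P ⟨c, h⟩ i / wt ν t i) • ν.restrict (cell t i)) univ =
        ENNReal.ofReal (P ⟨c, h⟩ i) := by
      intro i
      rw [Measure.smul_apply, Measure.restrict_apply_univ, meas_cell, smul_eq_mul,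
        ← ENNReal.ofReal_mul (div_nonneg (hP.1 _ _) (wt_pos i).le), div_mul_cancel₀ _ (wt_pos i).ne']
    rw [Finset.sum_congr rfl fun i _ => h1 i, ← ENNReal.ofReal_sum_of_nonneg fun i _ => hP.1 _ _,
      hP.2.1, ENNReal.ofReal_one]
  · unfold KK
    rw [dif_neg h]
    infer_instance

lemma KK_bar (hP : Feas (fun j : idx μ s => wt μ s j) (fun i : idx ν t => wt ν t i) P)
    (hνi : Integrable (fun x : E => x) ν) (j : idx μ s) :
    ∫ y, y ∂(KK μ ν s t P j) = bar (fun i : idx ν t => mean ν t i) P j := by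
  rw [KK_of_mem, integral_finset_sum_measure]
  · unfold bar
    refine Finset.sum_congr rfl fun i _ => ?_
    rw [integral_smul_measure, ENNReal.toReal_ofReal (div_nonneg (hP.1 _ _) (wt_pos i).le),
      ← wt_mean hνi i, smul_smul, div_mul_cancel₀ _ (wt_pos i).ne']
  · intro i _
    exact hνi.integrableOn.smul_measure ENNReal.ofReal_ne_top

lemma kk_markov (hP : Feas (fun j : idx μ s => wt μ s j) (fun i : idx ν t => wt ν t i) P) :
    IsMarkovKernel (kk μ ν s t P) := ⟨fun x => KK_prob hP (s x)⟩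

lemma kk_bind (hP : Feas (fun j : idx μ s => wt μ s j) (fun i : idx ν t => wt ν t i) P) :
    μ.bind (kk μ ν s t P) = ν := by
  ext S hS
  rw [Measure.bind_apply hS (kk μ ν s t P).measurable.aemeasurable, lpart (s := s)]
  have h1 : ∀ j : idx μ s, ∫⁻ x in cell s j, kk μ ν s t P x S ∂μ =
      ∑ i : idx ν t, ENNReal.ofReal (wt μ s j * P j i / wt ν t i) * ν (S ∩ cell t i) := by
    intro j
    have h2 : ∫⁻ x in cell s j, kk μ ν s t P x S ∂μ = ∫⁻ x in cell s j, KK μ ν s t P j S ∂μ := by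
      apply setLIntegral_congr_fun (cell_meas s j)
      intro x hx
      have hx' : s x = j := hx
      show KK μ ν s t P (s x) S = _
      rw [hx']
    rw [h2, setLIntegral_const, meas_cell, KK_of_mem, Measure.finset_sum_apply, Finset.sum_mul]
    refine Finset.sum_congr rfl fun i _ => ?_
    rw [Measure.smul_apply, Measure.restrict_apply hS, smul_eq_mul, mul_right_comm,
      ← ENNReal.ofReal_mul (div_nonneg (hP.1 _ _) (wt_pos i).le)]
    congr 2
    ring
  rw [Finset.sum_congr rfl fun j _ => h1 j, Finset.sum_comm]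
  have h2 : ∀ i : idx ν t, ∑ j : idx μ s, ENNReal.ofReal (wt μ s j * P j i / wt ν t i) * ν (S ∩ cell t i) =
      ν (S ∩ cell t i) := by
    intro i
    rw [← Finset.sum_mul, ← ENNReal.ofReal_sum_of_nonneg fun j _ =>
      div_nonneg (mul_nonneg (wt_pos j).le (hP.1 _ _)) (wt_pos i).le, ← Finset.sum_div, hP.2.2 i,
      div_self (wt_pos i).ne', ENNReal.ofReal_one, one_mul]
  rw [Finset.sum_congr rfl fun i _ => h2 i]
  have h3 := lpart (μ := ν) (s := t) (S.indicator 1)
  rw [lintegral_indicator_one hS] at h3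
  rw [h3]
  refine Finset.sum_congr rfl fun i _ => ?_
  rw [lintegral_indicator_one hS, Measure.restrict_apply hS]

end Pool.Agent.X139.WT
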