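import Pool.Agent.X139.WT.Basic

/-!
# Partitions by simple functions
-/

set_option autoImplicit false

namespace Pool.Agent.X139.WT

open MeasureTheory Set Filter Topology Finset
open scoped RealInnerProductSpace ENNReal

variable {E : Type*} [NormedAddCommGroup E] [InnerProductSpace ℝ E] [FiniteDimensional ℝ E]
  [MeasurableSpace E] [BorelSpace E]

/-- the cells -/
def cell (s : SimpleFunc E E) (c : E) : Set E := s ⁻¹' {c}

lemma cell_meas (s : SimpleFunc E E) (c : E) : MeasurableSet (cell s c) := s.measurableSet_fiber c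

/-- the weight of a cell -/
noncomputable def wt (μ : Measure E) (s : SimpleFunc E E) (c : E) : ℝ := μ.real (cell s c)

/-- the mean on a cell -/
noncomputable def mean (μ : Measure E) (s : SimpleFunc E E) (c : E) : E :=
  (wt μ s c)⁻¹ • ∫ x in cell s c, x ∂μ

open scoped Classical in
/-- the values whose cell is not null -/
noncomputable def idx (μ : Measure E) (s : SimpleFunc E E) : Finset E :=
  s.range.filter (fun c => 0 < wt μ s c)

variable {μ : Measure E} [IsProbabilityMeasure μ] {s : SimpleFunc E E}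

lemma part {F : Type*} [NormedAddCommGroup F] [NormedSpace ℝ F] {φ : E → F}
    (h : Integrable φ μ) : ∫ x, φ x ∂μ = ∑ j : idx μ s, ∫ x in cell s j, φ x ∂μ := by
  have h1 : ∫ x, φ x ∂μ = ∑ c ∈ s.range, ∫ x in cell s c, φ x ∂μ := by
    rw [← integral_biUnion_finset s.range (fun c _ => cell_meas s c) ?_ (fun c _ => h.integrableOn)]
    · have e : ⋃ c ∈ s.range, cell s c = univ := by
        ext x
        simp only [mem_iUnion, mem_univ, iff_true]
        exact ⟨s x, s.mem_range_self x, rfl⟩
      rw [e, setIntegral_univ]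
    · intro c _ c' _ hcc
      refine Set.disjoint_left.2 fun x hx hx' => hcc ?_
      have e1 : s x = c := hx
      have e2 : s x = c' := hx'
      rw [← e1, ← e2]
  rw [h1, Finset.sum_coe_sort (idx μ s) (fun c => ∫ x in cell s c, φ x ∂μ)]
  unfold idx
  rw [Finset.sum_filter]
  refine Finset.sum_congr rfl fun c _ => ?_
  split_ifs with hc
  · rfl
  · apply setIntegral_measure_zero
    have h2 : μ.real (cell s c) = 0 := le_antisymm (not_lt.1 hc) measureReal_nonneg
    rwa [measureReal_eq_zero_iff] at h2

lemma wt_pos (j : idx μ s) : 0 < wt μ s j := by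
  have := j.2
  unfold idx at this
  exact (Finset.mem_filter.1 this).2

lemma sum_wt : ∑ j : idx μ s, wt μ s j = 1 := by
  have h := part (μ := μ) (s := s) (φ := fun _ => (1:ℝ)) (integrable_const _)
  rw [integral_const, probReal_univ, one_smul] at h
  rw [h]
  refine Finset.sum_congr rfl fun j _ => ?_
  rw [setIntegral_const, smul_eq_mul, mul_one]
  rfl

lemma wt_mean (hi : Integrable (fun x : E => x) μ) (j : idx μ s) :
    wt μ s j • mean μ s j = ∫ x in cell s j, x ∂μ := by
  unfold mean
  rw [smul_smul, mul_inv_cancel₀ (wt_pos j).ne', one_smul]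

lemma wt_norm_mean (hi : Integrable (fun x : E => x) μ) (j : idx μ s) :
    wt μ s j * ‖mean μ s j‖ ≤ ∫ x in cell s j, ‖x‖ ∂μ := by
  have h := norm_integral_le_integral_norm (μ := μ.restrict (cell s j)) (fun x : E => x)
  rw [← wt_mean hi j, norm_smul, Real.norm_of_nonneg (wt_pos j).le] at h
  exact h

lemma jensen {f : E → ℝ} (hf : BB f) (hi : Integrable (fun x : E => x) μ) (hfi : Integrable f μ)
    (j : idx μ s) : wt μ s j * f (mean μ s j) ≤ ∫ x in cell s j, f x ∂μ := by
  have h0 : μ (cell s j) ≠ 0 := by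
    intro h
    have h1 := wt_pos j
    unfold wt at h1
    rw [measureReal_def, h] at h1
    simp at h1
  have h := hf.1.map_set_average_le (μ := μ) (t := cell s j) (f := fun x => x) hf.cont.continuousOn
    isClosed_univ h0 (measure_ne_top _ _) (Eventually.of_forall fun x => mem_univ _)
    hi.integrableOn hfi.integrableOn
  rw [setAverage_eq, setAverage_eq, smul_eq_mul] at h
  have h2 := mul_le_mul_of_nonneg_left h (wt_pos j).le
  have h3 : wt μ s j * ((μ.real (cell s j))⁻¹ * ∫ x in cell s j, f x ∂μ) = ∫ x in cell s j, f x ∂μ := by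
    rw [← mul_assoc]
    have : wt μ s j * (μ.real (cell s j))⁻¹ = 1 := mul_inv_cancel₀ (wt_pos j).ne'
    rw [this, one_mul]
  rw [h3] at h2
  exact h2

lemma lip_cell {f : E → ℝ} {L : ℝ} (hL : 0 ≤ L) (hf : ∀ u v, f u ≤ f v + L * ‖u - v‖)
    (hi : Integrable (fun x : E => x) μ) (hfi : Integrable f μ) (j : idx μ s) :
    ∫ x in cell s j, f x ∂μ ≤ wt μ s j * f (mean μ s j) + 2 * L * ∫ x in cell s j, ‖x - s x‖ ∂μ := by
  have hsi : Integrable (fun x => x - s x) μ :=
    hi.sub (s.integrable_of_isFiniteMeasure)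
  have h1 : ∫ x in cell s j, f x ∂μ ≤
      ∫ x in cell s j, (f (mean μ s j) + L * (‖x - s x‖ + ‖(j : E) - mean μ s j‖)) ∂μ := by
    apply setIntegral_mono_on hfi.integrableOn
    · exact ((integrable_const _).add ((hsi.norm.add (integrable_const _)).const_mul L)).integrableOn
    · exact cell_meas s j
    · intro x hx
      have hx' : s x = j := hx
      refine (hf x (mean μ s j)).trans ?_
      have h2 : ‖x - mean μ s j‖ ≤ ‖x - s x‖ + ‖(j : E) - mean μ s j‖ := by
        rw [hx']
        have := norm_add_le (x - (j : E)) ((j : E) - mean μ s j)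
        rwa [sub_add_sub_cancel] at this
      have := mul_le_mul_of_nonneg_left h2 hL
      linarith
  have h2 : ∫ x in cell s j, (f (mean μ s j) + L * (‖x - s x‖ + ‖(j : E) - mean μ s j‖)) ∂μ =
      wt μ s j * f (mean μ s j) + L * (∫ x in cell s j, ‖x - s x‖ ∂μ +
        wt μ s j * ‖(j : E) - mean μ s j‖) := by
    have hA : Integrable (fun x => ‖x - s x‖ + ‖(j : E) - mean μ s j‖) μ :=
      hsi.norm.add (integrable_const _)
    rw [integral_add (integrable_const _).integrableOn (hA.const_mul L).integrableOn,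
      integral_const_mul,
      integral_add hsi.norm.integrableOn (integrable_const _).integrableOn, setIntegral_const,
      setIntegral_const, smul_eq_mul, smul_eq_mul]
    rfl
  have h3 : wt μ s j * ‖(j : E) - mean μ s j‖ ≤ ∫ x in cell s j, ‖x - s x‖ ∂μ := by
    have h4 : wt μ s j • ((j : E) - mean μ s j) = -∫ x in cell s j, (x - s x) ∂μ := by
      have h5 : ∫ x in cell s j, (x - s x) ∂μ = ∫ x in cell s j, (x - (j : E)) ∂μ := by
        apply setIntegral_congr_fun (cell_meas s j)
        intro x hx
        have hx' : s x = j := hx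
        simp only [hx']
      rw [h5, integral_sub hi.integrableOn (integrable_const _).integrableOn, setIntegral_const,
        smul_sub, wt_mean hi j]
      simp only [wt]
      abel
    have h6 : wt μ s j * ‖(j : E) - mean μ s j‖ = ‖∫ x in cell s j, (x - s x) ∂μ‖ := by
      rw [← norm_neg (∫ x in cell s j, (x - s x) ∂μ), ← h4, norm_smul, Real.norm_of_nonneg (wt_pos j).le]
    rw [h6]
    exact norm_integral_le_integral_norm _
  rw [h2] at h1
  have := mul_le_mul_of_nonneg_left h3 hL
  linarith

lemma sq_cell (hi : Integrable (fun x : E => x) μ) (hi2 : Integrable (fun x : E => ‖x‖ ^ 2) μ)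
    (j : idx μ s) (b : E) :
    ∫ x in cell s j, ‖x - b‖ ^ 2 ∂μ = ∫ x in cell s j, ‖x‖ ^ 2 ∂μ - wt μ s j * ‖mean μ s j‖ ^ 2 +
      wt μ s j * ‖mean μ s j - b‖ ^ 2 := by
  have e : ∀ x : E, ‖x - b‖ ^ 2 = ‖x‖ ^ 2 - 2 * ⟪b, x⟫ + ‖b‖ ^ 2 := by
    intro x
    rw [norm_sub_sq_real, real_inner_comm]
  have hin : Integrable (fun x : E => 2 * ⟪b, x⟫) μ := (hi.const_inner b).const_mul 2
  simp only [e]
  have hA : Integrable (fun x : E => ‖x‖ ^ 2 - 2 * ⟪b, x⟫) μ := hi2.sub hin
  rw [integral_add hA.integrableOn (integrable_const _).integrableOn,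
    integral_sub hi2.integrableOn hin.integrableOn, integral_const_mul, setIntegral_const,
    integral_inner hi.integrableOn, ← wt_mean hi j, inner_smul_right, smul_eq_mul,
    real_inner_comm]
  simp only [wt]
  ring

end Pool.Agent.X139.WT
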