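import Pool.Agent.X139.WT.Cap

/-!
# The pointwise estimates
-/

set_option autoImplicit false

namespace Pool.Agent.X139.WT

open MeasureTheory Set Filter Topology Finset
open scoped RealInnerProductSpace

variable {E : Type*} [NormedAddCommGroup E] [InnerProductSpace ℝ E]

/-- the truncated positive part -/
noncomputable def mm (t : ℝ) : ℝ := min (max t 0) 1

lemma mm_nonneg (t : ℝ) : 0 ≤ mm t := le_min (le_max_right _ _) zero_le_one
lemma mm_le_one (t : ℝ) : mm t ≤ 1 := min_le_right _ _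
lemma mm_of_nonpos {t : ℝ} (h : t ≤ 0) : mm t = 0 := by
  unfold mm
  rw [max_eq_right h]
  exact min_eq_left zero_le_one
lemma mm_of_mem {t : ℝ} (h : 0 ≤ t) (h1 : t ≤ 1) : mm t = t := by
  unfold mm
  rw [max_eq_left h]
  exact min_eq_left h1
lemma mm_mono {s t : ℝ} (h : s ≤ t) : mm s ≤ mm t := by
  unfold mm
  gcongr
lemma mm_cont : Continuous mm := by
  unfold mm
  fun_prop

lemma exp_neg_le {t : ℝ} (ht : 0 ≤ t) : Real.exp (-t) ≤ 1 - t + t ^ 2 / 2 := by
  have h1 := Real.quadratic_le_exp_of_nonneg ht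
  have h2 : Real.exp (-t) * Real.exp t = 1 := by rw [← Real.exp_add]; simp
  have h3 : 0 < Real.exp (-t) := Real.exp_pos _
  have h4 : 0 ≤ 1 - t + t ^ 2 / 2 := by nlinarith [sq_nonneg (t - 1)]
  have h5 : Real.exp (-t) * (1 + t + t ^ 2 / 2) ≤ 1 :=
    (mul_le_mul_of_nonneg_left h1 h3.le).trans (le_of_eq h2)
  have h6 : 1 ≤ (1 - t + t ^ 2 / 2) * (1 + t + t ^ 2 / 2) := by nlinarith [sq_nonneg (t ^ 2)]
  have h7 : 0 < 1 + t + t ^ 2 / 2 := by positivity
  exact le_of_mul_le_mul_right (h5.trans h6) h7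

lemma exp_sub_le {u : ℝ} (hu : 0 ≤ u) : Real.exp u - 1 - u ≤ u ^ 2 * Real.exp u := by
  have h1 := Real.add_one_le_exp (-u)
  have h2 : Real.exp (-u) * Real.exp u = 1 := by rw [← Real.exp_add]; simp
  have h3 : 0 < Real.exp u := Real.exp_pos _
  have h4 : (-u + 1) * Real.exp u ≤ 1 :=
    (mul_le_mul_of_nonneg_right h1 h3.le).trans (le_of_eq h2)
  nlinarith

lemma Q_seg {a m : ℝ} {f : E → ℝ} (hf : ConvexOn ℝ univ f) (hm : ∀ x, m ≤ f x) (x y : E) {s : ℝ}
    (hs : 0 ≤ s) (hs1 : s ≤ 1) :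
    Q a f x ≤ (1 - s) * f x + s * f y + a ^ 2 * s ^ 2 * ‖x - y‖ ^ 2 := by
  refine (Q_le hm x ((1 - s) • x + s • y)).trans ?_
  have h := hf.2 (Set.mem_univ x) (Set.mem_univ y) (by linarith : 0 ≤ 1 - s) hs (by ring)
  rw [smul_eq_mul, smul_eq_mul] at h
  have e : x - ((1 - s) • x + s • y) = s • (x - y) := by
    rw [sub_smul, one_smul, smul_sub]
    abel
  rw [e, norm_smul, Real.norm_of_nonneg hs]
  nlinarith

/-- the sublevel sets -/
def Lev (f : E → ℝ) (i : ℕ) : Set E := {x | f x ≤ (1 / 2) ^ (i + 3)}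

/-- the weighted sum of the squares of the distances to the sublevel sets -/
noncomputable def DD (f : E → ℝ) (N : ℕ) (x : E) : ℝ :=
  ∑ i ∈ range N, (1 / 4) ^ i * Metric.infDist x (Lev f i) ^ 2

lemma DD_nonneg (f : E → ℝ) (N : ℕ) (x : E) : 0 ≤ DD f N x :=
  Finset.sum_nonneg fun i _ => by positivity

lemma le_DD (f : E → ℝ) {N i : ℕ} (hi : i < N) (x : E) :
    (1 / 4) ^ i * Metric.infDist x (Lev f i) ^ 2 ≤ DD f N x :=
  Finset.single_le_sum (f := fun i => (1 / 4 : ℝ) ^ i * Metric.infDist x (Lev f i) ^ 2)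
    (fun i _ => by positivity) (mem_range.2 hi)

/-- the sum over the levels -/
lemma sum_levels (t : ℝ) (N : ℕ) :
    ∑ i ∈ range N, (1 / 4 : ℝ) ^ i * (if t ≤ (1 / 2) ^ (i + 3) then 0 else 1) ≤ 256 / 3 * mm t ^ 2 := by
  set u : ℕ → ℝ := fun i => min ((1 / 2) ^ i) (8 * mm t) ^ 2 with hu
  have hu0 : ∀ i, 0 ≤ min ((1 / 2 : ℝ) ^ i) (8 * mm t) := fun i =>
    le_min (by positivity) (by have := mm_nonneg t; positivity)
  have h : ∀ i ∈ range N, (1 / 4 : ℝ) ^ i * (if t ≤ (1 / 2) ^ (i + 3) then 0 else 1) ≤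
      4 / 3 * (u i - u (i + 1)) := by
    intro i _
    split_ifs with h
    · rw [mul_zero]
      have : u (i + 1) ≤ u i := by
        apply pow_le_pow_left₀ (hu0 _)
        apply min_le_min_right
        exact pow_le_pow_of_le_one (by norm_num) (by norm_num) (by omega)
      linarith
    · rw [not_le, pow_add] at h
      have h1 : (1 / 2 : ℝ) ^ i ≤ 1 := pow_le_one₀ (by norm_num) (by norm_num)
      have h0 : (0:ℝ) < (1 / 2) ^ i := by positivity
      have h2 : (1 / 2 : ℝ) ^ i ≤ 8 * mm t := by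
        unfold mm
        rw [mul_min_of_nonneg _ _ (by norm_num : (0:ℝ) ≤ 8)]
        apply le_min _ (by linarith)
        have := le_max_left t 0
        linarith
      have e1 : u i = (1 / 4) ^ i := by
        simp only [hu]
        rw [min_eq_left h2, ← pow_mul, mul_comm, pow_mul]
        norm_num
      have e2 : u (i + 1) = (1 / 4) ^ (i + 1) := by
        simp only [hu]
        rw [min_eq_left ((pow_le_pow_of_le_one (by norm_num) (by norm_num) (by omega)).trans h2),
          ← pow_mul, mul_comm, pow_mul]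
        norm_num
      rw [e1, e2, pow_succ]
      linarith
  refine (Finset.sum_le_sum h).trans ?_
  rw [← Finset.mul_sum, Finset.sum_range_sub' u N]
  have h1 : 0 ≤ u N := sq_nonneg _
  have h2 : u 0 ≤ (8 * mm t) ^ 2 := pow_le_pow_left₀ (hu0 0) (min_le_right _ _) 2
  nlinarith

variable [FiniteDimensional ℝ E]

lemma near {f : E → ℝ} (hf : Continuous f) {i : ℕ} (hne : (Lev f i).Nonempty) (x : E) :
    ∃ y, f y ≤ (1 / 2) ^ (i + 3) ∧ ‖x - y‖ = Metric.infDist x (Lev f i) := by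
  haveI : ProperSpace E := FiniteDimensional.proper_real E
  have hc : IsClosed (Lev f i) := isClosed_le hf continuous_const
  obtain ⟨y, hy, h⟩ := hc.exists_infDist_eq_dist hne x
  exact ⟨y, hy, by rw [h, dist_eq_norm]⟩

/-- the pointwise bound -/
lemma net_bound {a R κ : ℝ} {f : E → ℝ} (hf : BB f) (hne : ∃ y, f y ≤ 0) (hR : 0 ≤ R) (hκ : 0 ≤ κ)
    (hκ1 : κ ≤ 1) (hlow : ∀ x, κ * (R - ‖x‖) ≤ f x) {N : ℕ} (hN : 1 ≤ N) (x : E) :
    1 / 4 * mm (f x) ^ 2 - a ^ 2 * DD f N x - (1 / 4) ^ N - κ ^ 2 * (‖x‖ ^ 2 * Real.exp (1 * ‖x‖)) ≤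
      1 - Real.exp (-f x) - Q a f x := by
  obtain ⟨m, hm⟩ := hf.2
  have hD := mul_nonneg (sq_nonneg a) (DD_nonneg f N x)
  have hN0 : (0:ℝ) < (1 / 4) ^ N := by positivity
  have hE0 : 0 ≤ κ ^ 2 * (‖x‖ ^ 2 * Real.exp (1 * ‖x‖)) := by positivity
  have hQ := Q_le_self (a := a) hm x
  have hLne : ∀ i, (Lev f i).Nonempty := fun i => by
    obtain ⟨y, hy⟩ := hne
    exact ⟨y, hy.trans (by positivity)⟩
  rcases le_or_gt (f x) 0 with h | h
  · rw [mm_of_nonpos h]
    have hu : 0 ≤ -f x := by linarith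
    have hu1 : -f x ≤ κ * ‖x‖ := by
      have := hlow x
      have := mul_nonneg hκ hR
      linarith
    have h1 := exp_sub_le hu
    have h2 : (-f x) ^ 2 * Real.exp (-f x) ≤ κ ^ 2 * (‖x‖ ^ 2 * Real.exp (1 * ‖x‖)) := by
      rw [← mul_assoc, ← mul_pow]
      have h3 : κ * ‖x‖ ≤ 1 * ‖x‖ := mul_le_mul_of_nonneg_right hκ1 (norm_nonneg x)
      exact mul_le_mul (pow_le_pow_left₀ hu hu1 2) (Real.exp_le_exp.2 (hu1.trans h3))
        (Real.exp_pos _).le (by positivity)
    linarith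
  have hexp := exp_neg_le h.le
  rcases le_or_gt (f x) (1 / 2) with h1 | h1
  · rw [mm_of_mem h.le (by linarith)]
    rcases le_or_gt (f x) ((1 / 2) ^ (N + 1)) with h2 | h2
    · have h3 : f x ^ 2 ≤ (1 / 4) ^ (N + 1) := by
        have := pow_le_pow_left₀ h.le h2 2
        rw [← pow_mul, mul_comm, pow_mul] at this
        norm_num at this ⊢
        exact this
      have e : (1 / 4 : ℝ) ^ (N + 1) = (1 / 4) ^ N * (1 / 4) := pow_succ _ _
      rw [e] at h3
      linarith
    · obtain ⟨i, hi1, hi2⟩ := exists_nat_pow_near_of_lt_one (x := 2 * f x) (y := (1 / 2 : ℝ))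
        (by linarith) (by linarith) (by norm_num) (by norm_num)
      have hiN : i < N := by
        by_contra hc
        rw [not_lt] at hc
        have h3 : (1 / 2 : ℝ) ^ i ≤ (1 / 2) ^ N := pow_le_pow_of_le_one (by norm_num) (by norm_num) hc
        rw [pow_succ] at h2
        linarith
      obtain ⟨y, hy, hd⟩ := near hf.cont (hLne i) x
      have h3 := Q_seg (a := a) hf.1 hm x y (s := 2 * f x) (by linarith) (by linarith)
      rw [hd] at h3
      have h4 := le_DD f hiN x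
      have h5 : f y ≤ f x / 2 := by
        rw [pow_add] at hy
        rw [pow_succ] at hi1
        norm_num at hy hi1
        linarith
      have h6 : (2 * f x) ^ 2 ≤ (1 / 4) ^ i := by
        have := pow_le_pow_left₀ (by linarith : 0 ≤ 2 * f x) hi2 2
        rw [← pow_mul, mul_comm i 2, pow_mul] at this
        norm_num at this ⊢
        exact this
      have h7 : a ^ 2 * (2 * f x) ^ 2 * Metric.infDist x (Lev f i) ^ 2 ≤ a ^ 2 * DD f N x := by
        rw [mul_assoc]
        apply mul_le_mul_of_nonneg_left _ (sq_nonneg a)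
        exact (mul_le_mul_of_nonneg_right h6 (sq_nonneg _)).trans h4
      have h8 : 2 * f x * f y ≤ 2 * f x * (f x / 2) := mul_le_mul_of_nonneg_left h5 (by linarith)
      nlinarith
  · obtain ⟨y, hy, hd⟩ := near hf.cont (hLne 0) x
    have h3 := Q_seg (a := a) hf.1 hm x y (s := 1) (by norm_num) le_rfl
    rw [hd] at h3
    have h4 := le_DD f (show 0 < N by omega) x
    rw [pow_zero, one_mul] at h4
    have h5 := mul_le_mul_of_nonneg_left h4 (sq_nonneg a)
    norm_num at hy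
    have h6 : Real.exp (-f x) ≤ 5 / 8 := by
      have h8 := exp_neg_le (t := 1 / 2) (by norm_num)
      have h7 : Real.exp (-f x) ≤ Real.exp (-(1 / 2)) := Real.exp_le_exp.2 (by linarith)
      refine (h7.trans h8).trans ?_
      norm_num
    have h7 : mm (f x) ^ 2 ≤ 1 := pow_le_one₀ (mm_nonneg _) (mm_le_one _)
    nlinarith

end Pool.Agent.X139.WT
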